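import Mathlib
import Pool.Agent.H713R2.Area

/-!
# Nearly affine holomorphic functions and areas
-/

set_option autoImplicit false

open Set Filter Topology Metric MeasureTheory

namespace Pool.Agent.Helper134.AR

theorem near_affine {f : ℂ → ℂ} {S : Set ℂ} (hS : Convex ℝ S) {lam : ℂ} {ε : ℝ}
    (hd : ∀ x ∈ S, DifferentiableAt ℂ f x) (hn : ∀ x ∈ S, ‖deriv f x - lam‖ ≤ ε) {x y : ℂ}
    (hx : x ∈ S) (hy : y ∈ S) : ‖f x - f y - lam * (x - y)‖ ≤ ε * ‖x - y‖ := by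
  have hd' : ∀ x ∈ S, HasDerivWithinAt (fun x => f x - lam * x) (deriv f x - lam) S x := by
    intro x hx
    have h2 := (hd x hx).hasDerivAt.fun_sub ((hasDerivAt_id x).const_mul lam)
    simp only [id, mul_one] at h2
    exact h2.hasDerivWithinAt
  have h1 := hS.norm_image_sub_le_of_norm_hasDerivWithin_le hd' (fun x hx => hn x hx) hy hx
  have h2 : f x - f y - lam * (x - y) = f x - lam * x - (f y - lam * y) := by ring
  rw [h2]
  exact h1

theorem bilip {f : ℂ → ℂ} {S : Set ℂ} (hS : Convex ℝ S) {lam : ℂ} {ε : ℝ}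
    (hd : ∀ x ∈ S, DifferentiableAt ℂ f x) (hn : ∀ x ∈ S, ‖deriv f x - lam‖ ≤ ε) {x y : ℂ}
    (hx : x ∈ S) (hy : y ∈ S) : (‖lam‖ - ε) * ‖x - y‖ ≤ ‖f x - f y‖ ∧
      ‖f x - f y‖ ≤ (‖lam‖ + ε) * ‖x - y‖ := by
  have h1 := near_affine hS hd hn hx hy
  have h3 := norm_sub_norm_le (lam * (x - y)) (f x - f y)
  rw [norm_sub_rev (lam * (x - y)), norm_mul] at h3
  have h4 := norm_sub_norm_le (f x - f y) (lam * (x - y))
  rw [norm_mul] at h4
  constructor
  · rw [sub_mul]; linarith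
  · rw [add_mul]; linarith

theorem area_le {f f' : ℂ → ℂ} {S : Set ℂ} (hS : MeasurableSet S)
    (hd : ∀ x ∈ S, HasDerivAt f (f' x) x) (hinj : InjOn f S) {δ : ℝ} (hδ : 0 ≤ δ)
    (hlow : ∀ x ∈ S, δ ≤ ‖f' x‖) : ENNReal.ofReal (δ ^ 2) * volume S ≤ volume (f '' S) := by
  have h1 := lintegral_abs_det_fderiv_eq_addHaar_image (volume : Measure ℂ) hS
    (f := f) (f' := fun x => (ContinuousLinearMap.toSpanSingleton ℂ (f' x)).restrictScalars ℝ)
    (fun x hx => ((hd x hx).hasFDerivAt.restrictScalars ℝ).hasFDerivWithinAt) hinj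
  rw [← h1, ← setLIntegral_const]
  apply setLIntegral_mono' hS
  intro x hx
  rw [Pool.Agent.H713R2.det_mul_real, abs_of_nonneg (by positivity)]
  apply ENNReal.ofReal_le_ofReal
  exact pow_le_pow_left₀ hδ (hlow x hx) 2

theorem area_image_le {f f' : ℂ → ℂ} {S : Set ℂ} (hS : MeasurableSet S)
    (hd : ∀ x ∈ S, HasDerivAt f (f' x) x) {δ : ℝ}
    (hup : ∀ x ∈ S, ‖f' x‖ ≤ δ) : volume (f '' S) ≤ ENNReal.ofReal (δ ^ 2) * volume S := by
  have h1 := addHaar_image_le_lintegral_abs_det_fderiv (volume : Measure ℂ) hS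
    (f := f) (f' := fun x => (ContinuousLinearMap.toSpanSingleton ℂ (f' x)).restrictScalars ℝ)
    (fun x hx => ((hd x hx).hasFDerivAt.restrictScalars ℝ).hasFDerivWithinAt)
  refine h1.trans ?_
  rw [← setLIntegral_const]
  apply setLIntegral_mono' hS
  intro x hx
  rw [Pool.Agent.H713R2.det_mul_real, abs_of_nonneg (by positivity)]
  apply ENNReal.ofReal_le_ofReal
  exact pow_le_pow_left₀ (norm_nonneg _) (hup x hx) 2

theorem volume_rect (a b c d : ℝ) : volume (Icc a b ×ℂ Icc c d) =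
    ENNReal.ofReal (b - a) * ENNReal.ofReal (d - c) := by
  have h := Complex.volume_preserving_equiv_real_prod
  have h1 : (Icc a b ×ℂ Icc c d) = Complex.measurableEquivRealProd ⁻¹' (Icc a b ×ˢ Icc c d) := by
    ext z
    rw [Complex.mem_reProdIm]
    rfl
  rw [h1, h.measure_preimage_equiv, Measure.volume_eq_prod, Measure.prod_prod, Real.volume_Icc, Real.volume_Icc]

theorem volume_cball (z : ℂ) {r : ℝ} (hr : 0 ≤ r) : volume (closedBall z r) =
    ENNReal.ofReal (Real.pi * r ^ 2) := by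
  rw [Complex.volume_closedBall, ← ENNReal.ofReal_pow hr, mul_comm,
    ENNReal.ofReal_mul Real.pi_pos.le]
  congr 1
  exact (ENNReal.ofReal_coe_nnreal (p := NNReal.pi)).symm

theorem volume_oball (z : ℂ) {r : ℝ} (hr : 0 ≤ r) : volume (ball z r) =
    ENNReal.ofReal (Real.pi * r ^ 2) := by
  rw [Complex.volume_ball, ← ENNReal.ofReal_pow hr, mul_comm,
    ENNReal.ofReal_mul Real.pi_pos.le]
  congr 1
  exact (ENNReal.ofReal_coe_nnreal (p := NNReal.pi)).symm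

/-- The part of a disc which a nearly affine function maps into a strip is small. -/
theorem strip_area {l : ℂ → ℂ} {v Λ : ℂ} {σ h : ℝ} (hσ : 0 < σ) (hh : 0 < h)
    (hΛ : 0 < ‖Λ‖) (hd : ∀ x ∈ ball v σ, DifferentiableAt ℂ l x)
    (hn : ∀ x ∈ ball v σ, ‖deriv l x - Λ‖ ≤ ‖Λ‖ / 4) (hv : l v = 0) :
    volume {x ∈ ball v σ | |(l x).re| < h} ≤ ENNReal.ofReal (9 * h * σ / ‖Λ‖) := by
  set S : Set ℂ := {x ∈ ball v σ | |(l x).re| < h} with hS
  have hcont : ContinuousOn l (ball v σ) := fun x hx => (hd x hx).continuousAt.continuousWithinAt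
  have hopen : IsOpen S := by
    have h1 := hcont.isOpen_inter_preimage isOpen_ball
      (t := {x : ℂ | |x.re| < h}) (isOpen_lt (by fun_prop) continuous_const)
    exact h1
  have hinj : InjOn l S := by
    intro x hx y hy hxy
    have h1 := (bilip (convex_ball v σ) hd hn hx.1 hy.1).1
    rw [hxy, sub_self, norm_zero] at h1
    by_contra hne
    have h2 : 0 < ‖x - y‖ := norm_pos_iff.2 (sub_ne_zero.2 hne)
    have h3 : 0 < (‖Λ‖ - ‖Λ‖ / 4) * ‖x - y‖ := by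
      apply mul_pos _ h2
      linarith
    linarith
  have h1 := area_le hopen.measurableSet (f := l) (f' := deriv l) (δ := 3 / 4 * ‖Λ‖)
    (fun x hx => (hd x hx.1).hasDerivAt) hinj (by positivity) (by
      intro x hx
      have h2 := hn x hx.1
      have h3 := norm_sub_norm_le Λ (deriv l x)
      rw [norm_sub_rev] at h3
      linarith)
  have h2 : volume (l '' S) ≤ ENNReal.ofReal (2 * h) * ENNReal.ofReal (5 / 2 * ‖Λ‖ * σ) := by
    have h3 := volume_rect (-h) h (-(5 / 4 * ‖Λ‖ * σ)) (5 / 4 * ‖Λ‖ * σ)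
    rw [show h - -h = 2 * h by ring, show 5 / 4 * ‖Λ‖ * σ - -(5 / 4 * ‖Λ‖ * σ) =
      5 / 2 * ‖Λ‖ * σ by ring] at h3
    rw [← h3]
    apply measure_mono
    rintro _ ⟨x, hx, rfl⟩
    rw [Complex.mem_reProdIm]
    have h4 := abs_lt.1 hx.2
    have h5 := (bilip (convex_ball v σ) hd hn hx.1 (mem_ball_self hσ)).2
    rw [hv, sub_zero] at h5
    have h6 : ‖x - v‖ ≤ σ := by
      have := hx.1
      rw [mem_ball, dist_eq_norm] at this
      exact this.le
    have h7 : (‖Λ‖ + ‖Λ‖ / 4) * ‖x - v‖ ≤ 5 / 4 * ‖Λ‖ * σ := by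
      calc (‖Λ‖ + ‖Λ‖ / 4) * ‖x - v‖ ≤ (‖Λ‖ + ‖Λ‖ / 4) * σ := by gcongr
        _ = _ := by ring
    have h8 := abs_le.1 ((Complex.abs_im_le_norm (l x)).trans (h5.trans h7))
    exact ⟨⟨h4.1.le, h4.2.le⟩, h8⟩
  have h3 := h1.trans h2
  have h4 : ENNReal.ofReal ((3 / 4 * ‖Λ‖) ^ 2) ≠ 0 := by
    rw [ENNReal.ofReal_ne_zero_iff]; positivity
  have h5 : volume S ≤ (ENNReal.ofReal ((3 / 4 * ‖Λ‖) ^ 2))⁻¹ *
      (ENNReal.ofReal (2 * h) * ENNReal.ofReal (5 / 2 * ‖Λ‖ * σ)) := by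
    rw [mul_comm, ← div_eq_mul_inv, ENNReal.le_div_iff_mul_le (Or.inl h4)
      (Or.inl ENNReal.ofReal_ne_top), mul_comm]
    exact h3
  refine h5.trans ?_
  rw [← ENNReal.ofReal_inv_of_pos (by positivity), ← ENNReal.ofReal_mul (by positivity),
    ← ENNReal.ofReal_mul (by positivity)]
  apply ENNReal.ofReal_le_ofReal
  have h6 : ((3 / 4 * ‖Λ‖) ^ 2)⁻¹ * (2 * h * (5 / 2 * ‖Λ‖ * σ)) = 80 / 9 * h * σ / ‖Λ‖ := by
    field_simp
    ring
  rw [h6]
  gcongr
  norm_num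

end Pool.Agent.Helper134.AR
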