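import Mathlib
import Pool.Agent.Helper134_FD.Stage
import Pool.Agent.Helper134_AR.CV

/-!
# Nearly affine curves of marked points and one step of the dynamics
-/

set_option autoImplicit false

open Set Filter Topology Metric MeasureTheory

namespace Pool.Agent.Helper134.AR

open Pool.Agent.H762R2.Rt Pool.Agent.Helper134.FD

variable {P Q : Polynomial ℂ} {s : ℂ} {n : ℕ} {ρ : ℝ} {X : ℂ → ℂ}

/-- One step of the orbit at the parameter `ζ`. -/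
noncomputable def stp (P Q : Polynomial ℂ) (s : ℂ) (n : ℕ) (ζ w : ℂ) : ℂ :=
  Complex.exp ζ * (s * P.eval w / Q.eval w) ^ n

/-- The image of the marked point. -/
noncomputable def nxt (P Q : Polynomial ℂ) (s : ℂ) (n : ℕ) (X : ℂ → ℂ) (ζ : ℂ) : ℂ :=
  stp P Q s n ζ (X ζ)

/-- The parameters for which the orbit of the marked point is never captured. -/
def Bad (P Q : Polynomial ℂ) (s : ℂ) (n : ℕ) (ρ : ℝ) (X : ℂ → ℂ) : Set ℂ :=
  {ζ | ∀ k : ℕ, ρ < ‖(stp P Q s n ζ)^[k] (X ζ)‖ ∧ ‖(stp P Q s n ζ)^[k] (X ζ)‖ < ρ⁻¹}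

theorem Bad_nxt : Bad P Q s n ρ X ⊆ Bad P Q s n ρ (nxt P Q s n X) := by
  intro ζ h k
  have h1 := h (k + 1)
  rw [Function.iterate_succ_apply] at h1
  exact h1

theorem Bad_zero {ζ : ℂ} (h : ζ ∈ Bad P Q s n ρ X) : ρ < ‖X ζ‖ ∧ ‖X ζ‖ < ρ⁻¹ := h 0

theorem Bad_one {ζ : ℂ} (h : ζ ∈ Bad P Q s n ρ X) :
    ρ < ‖nxt P Q s n X ζ‖ ∧ ‖nxt P Q s n X ζ‖ < ρ⁻¹ := h 1

theorem nxt_ne (hn : 1 ≤ n) {ζ : ℂ} (h : nxt P Q s n X ζ ≠ 0) :
    s ≠ 0 ∧ P.eval (X ζ) ≠ 0 ∧ Q.eval (X ζ) ≠ 0 := by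
  unfold nxt stp at h
  have hn0 : n ≠ 0 := by omega
  refine ⟨?_, ?_, ?_⟩
  · rintro rfl
    apply h
    simp [hn0]
  · intro h0
    apply h
    rw [h0]
    simp [hn0]
  · intro h0
    apply h
    rw [h0]
    simp [hn0]

theorem hasDerivAt_nxt (hn : 1 ≤ n) {ζ : ℂ} (hP : P.eval (X ζ) ≠ 0) (hQ : Q.eval (X ζ) ≠ 0)
    (hd : DifferentiableAt ℂ X ζ) :
    HasDerivAt (nxt P Q s n X) (nxt P Q s n X ζ *
      (1 + n * lq P Q (X ζ) * deriv X ζ)) ζ := by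
  obtain ⟨j, rfl⟩ : ∃ j, n = j + 1 := ⟨n - 1, by omega⟩
  have hW := hd.hasDerivAt
  have h1 : HasDerivAt (fun ζ => P.eval (X ζ)) (P.derivative.eval (X ζ) * deriv X ζ) ζ :=
    (P.hasDerivAt (X ζ)).comp ζ hW
  have h2 : HasDerivAt (fun ζ => Q.eval (X ζ)) (Q.derivative.eval (X ζ) * deriv X ζ) ζ :=
    (Q.hasDerivAt (X ζ)).comp ζ hW
  have h3 := ((h1.const_mul s).fun_div h2 hQ).fun_pow (j + 1)
  have h4 := (Complex.hasDerivAt_exp ζ).fun_mul h3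
  have e : nxt P Q s (j + 1) X = fun ζ => Complex.exp ζ *
    (s * P.eval (X ζ) / Q.eval (X ζ)) ^ (j + 1) := rfl
  rw [e]
  refine h4.congr_deriv ?_
  simp only [lq, wro, Polynomial.eval_sub, Polynomial.eval_mul]
  exact alg j hP hQ

/-- A nearly affine curve of marked points over the disc of centre `z` and radius `2 T`. -/
structure Cur (lam₀ : ℝ) (z : ℂ) (T : ℝ) (lam : ℂ) (X : ℂ → ℂ) : Prop where
  hT : 0 < T
  hsub : closedBall z (2 * T) ⊆ closedBall 0 1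
  hdiff : ∀ ζ ∈ ball z (2 * T), DifferentiableAt ℂ X ζ
  hnear : ∀ ζ ∈ ball z (2 * T), ‖deriv X ζ - lam‖ ≤ ‖lam‖ / 4
  hlow : lam₀ ≤ ‖lam‖
  hsize : ‖lam‖ * T ≤ 1

variable {lam₀ T : ℝ} {z lam : ℂ}

theorem Cur.T_le (h : Cur lam₀ z T lam X) : T ≤ 1 / 2 := by
  have h1 : z + ((2 * T : ℝ) : ℂ) ∈ closedBall z (2 * T) := by
    rw [mem_closedBall, dist_eq_norm, add_sub_cancel_left, Complex.norm_real, Real.norm_eq_abs,
      abs_of_pos (by have := h.hT; positivity)]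
  have h2 : z - ((2 * T : ℝ) : ℂ) ∈ closedBall z (2 * T) := by
    rw [mem_closedBall, dist_eq_norm, sub_sub_cancel_left, norm_neg, Complex.norm_real,
      Real.norm_eq_abs, abs_of_pos (by have := h.hT; positivity)]
  have h3 := h.hsub h1
  have h4 := h.hsub h2
  rw [mem_closedBall_zero_iff] at h3 h4
  have h5 := norm_sub_le (z + ((2 * T : ℝ) : ℂ)) (z - ((2 * T : ℝ) : ℂ))
  have h6 : z + ((2 * T : ℝ) : ℂ) - (z - ((2 * T : ℝ) : ℂ)) = ((4 * T : ℝ) : ℂ) := by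
    push_cast; ring
  rw [h6, Complex.norm_real, Real.norm_eq_abs, abs_of_pos (by have := h.hT; positivity)] at h5
  linarith

theorem Cur.bilip (h : Cur lam₀ z T lam X) {x y : ℂ} (hx : x ∈ ball z (2 * T))
    (hy : y ∈ ball z (2 * T)) : 3 / 4 * ‖lam‖ * ‖x - y‖ ≤ ‖X x - X y‖ ∧
      ‖X x - X y‖ ≤ 5 / 4 * ‖lam‖ * ‖x - y‖ := by
  have h1 := AR.bilip (convex_ball z (2 * T)) h.hdiff h.hnear hx hy
  constructor
  · calc 3 / 4 * ‖lam‖ * ‖x - y‖ = (‖lam‖ - ‖lam‖ / 4) * ‖x - y‖ := by ring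
      _ ≤ _ := h1.1
  · calc ‖X x - X y‖ ≤ (‖lam‖ + ‖lam‖ / 4) * ‖x - y‖ := h1.2
      _ = _ := by ring

theorem Cur.deriv_bds (h : Cur lam₀ z T lam X) {x : ℂ} (hx : x ∈ ball z (2 * T)) :
    3 / 4 * ‖lam‖ ≤ ‖deriv X x‖ ∧ ‖deriv X x‖ ≤ 5 / 4 * ‖lam‖ := by
  have h1 := h.hnear x hx
  have h2 := norm_sub_norm_le lam (deriv X x)
  have h3 := norm_sub_norm_le (deriv X x) lam
  rw [norm_sub_rev] at h2
  constructor <;> linarith

/-- On small discs the derivative is nearly constant. -/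
theorem Cur.deriv_var (h : Cur lam₀ z T lam X) {v ζ : ℂ} (hv : v ∈ ball z T)
    {σ : ℝ} (hσT : σ ≤ T) (hζ : ζ ∈ ball v σ) :
    ‖deriv X ζ - deriv X v‖ ≤ ‖lam‖ / 2 / T * σ := by
  have hT := h.hT
  have hsub : ball v T ⊆ ball z (2 * T) := by
    intro x hx
    rw [mem_ball] at hx hv ⊢
    have := dist_triangle x v z
    linarith
  have hd : DifferentiableOn ℂ (deriv X) (ball v T) := by
    have h1 : DifferentiableOn ℂ X (ball z (2 * T)) := fun x hx =>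
      (h.hdiff x hx).differentiableWithinAt
    exact (h1.deriv isOpen_ball).mono hsub
  have hmaps : MapsTo (deriv X) (ball v T) (closedBall (deriv X v) (‖lam‖ / 2)) := by
    intro x hx
    rw [mem_closedBall, dist_eq_norm]
    have h1 := h.hnear x (hsub hx)
    have h2 := h.hnear v (hsub (mem_ball_self hT))
    have h3 : deriv X x - deriv X v = (deriv X x - lam) - (deriv X v - lam) := by ring
    rw [h3]
    refine (norm_sub_le _ _).trans ?_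
    linarith
  have hζ' : ζ ∈ ball v T := ball_subset_ball hσT hζ
  have h1 := Complex.dist_le_div_mul_dist_of_mapsTo_ball hd hmaps hζ'
  rw [dist_eq_norm] at h1
  refine h1.trans ?_
  rw [mem_ball] at hζ
  have := hζ.le
  gcongr

/-- The logarithm, with its derivative. -/
theorem exists_log' {u G₀ : ℂ → ℂ} {a : ℂ} {σ : ℝ} (hσ : 0 < σ)
    (hu : ∀ ζ ∈ ball a σ, HasDerivAt u (u ζ * (1 + G₀ ζ)) ζ) (hne : ∀ ζ ∈ ball a σ, u ζ ≠ 0) :
    ∃ l : ℂ → ℂ, l a = 0 ∧ (∀ ζ ∈ ball a σ, u ζ = u a * Complex.exp (l ζ)) ∧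
      ∀ ζ ∈ ball a σ, HasDerivAt l (1 + G₀ ζ) ζ := by
  have ha : a ∈ ball a σ := mem_ball_self hσ
  have hud : DifferentiableOn ℂ u (ball a σ) := fun ζ hζ =>
    (hu ζ hζ).differentiableAt.differentiableWithinAt
  have hGd : DifferentiableOn ℂ (fun ζ => deriv u ζ / u ζ) (ball a σ) :=
    (hud.deriv isOpen_ball).div hud hne
  obtain ⟨L, hL⟩ := hGd.isExactOn_ball
  have hL' : ∀ ζ ∈ ball a σ, HasDerivAt L (1 + G₀ ζ) ζ := by
    intro ζ hζ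
    have h1 := hL ζ hζ
    refine h1.congr_deriv ?_
    show deriv u ζ / u ζ = 1 + G₀ ζ
    rw [(hu ζ hζ).deriv, mul_div_cancel_left₀ _ (hne ζ hζ)]
  -- `u exp (- L)` is constant
  have hconst : ∀ ζ ∈ ball a σ, u ζ * Complex.exp (-L ζ) = u a * Complex.exp (-L a) := by
    intro ζ hζ
    have hd : ∀ x ∈ ball a σ, HasDerivAt (fun x => u x * Complex.exp (-L x)) 0 x := by
      intro x hx
      have h1 := (hu x hx).fun_mul (hL' x hx).fun_neg.cexp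
      refine h1.congr_deriv ?_
      ring
    apply isOpen_ball.is_const_of_deriv_eq_zero (convex_ball a σ).isPreconnected
      (f := fun x => u x * Complex.exp (-L x)) _ _ hζ ha
    · exact fun x hx => (hd x hx).differentiableAt.differentiableWithinAt
    · intro x hx
      exact (hd x hx).deriv
  refine ⟨fun ζ => L ζ - L a, sub_self _, fun ζ hζ => ?_, fun ζ hζ => ?_⟩
  · have h1 := hconst ζ hζ
    have h2 : u ζ = u ζ * Complex.exp (-L ζ) * Complex.exp (L ζ) := by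
      rw [mul_assoc, ← Complex.exp_add]; simp
    rw [h2, h1, mul_assoc, ← Complex.exp_add]
    congr 2
    ring
  · exact (hL' ζ hζ).sub_const _

/-- The constants of relative variation. -/
def Var (P Q : Polynomial ℂ) (θ : ℝ) : Prop :=
  ∀ w w₀ : ℂ, ∀ d : ℝ, 0 < d →
      (∀ y ∈ (wro P Q * (P * Q)).roots.toFinset, d ≤ ‖w₀ - y‖) → ‖w - w₀‖ ≤ θ * d →
      P.eval w ≠ 0 ∧ Q.eval w ≠ 0 ∧ ‖lq P Q w - lq P Q w₀‖ ≤ 1 / 200 * ‖lq P Q w₀‖

/-- The image curve has a nearly affine logarithm. -/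
theorem Cur.loc (hn : 1 ≤ n) (hs : s ≠ 0) {θ : ℝ} (hvar : Var P Q θ)
    (h : Cur lam₀ z T lam X) (hlam₀ : 0 < lam₀) {v : ℂ} (hv : v ∈ ball z T) {σ d : ℝ}
    (hσ : 0 < σ) (hσT : σ ≤ T / 200) (hd : 0 < d)
    (hdist : ∀ y ∈ (wro P Q * (P * Q)).roots.toFinset, d ≤ ‖X v - y‖)
    (hσd : 5 / 4 * ‖lam‖ * σ ≤ θ * d) :
    ∃ l : ℂ → ℂ, l v = 0 ∧
      (∀ ζ ∈ ball v σ, P.eval (X ζ) ≠ 0 ∧ Q.eval (X ζ) ≠ 0) ∧
      (∀ ζ ∈ ball v σ, nxt P Q s n X ζ = nxt P Q s n X v * Complex.exp (l ζ)) ∧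
      (∀ ζ ∈ ball v σ, HasDerivAt l (1 + n * lq P Q (X ζ) * deriv X ζ) ζ) ∧
      ∀ ζ ∈ ball v σ, ‖n * lq P Q (X ζ) * deriv X ζ - n * lq P Q (X v) * deriv X v‖ ≤
        ‖n * lq P Q (X v) * deriv X v‖ / 100 := by
  have hT := h.hT
  have hlam : 0 < ‖lam‖ := hlam₀.trans_le h.hlow
  have hsub : ball v σ ⊆ ball z (2 * T) := by
    intro x hx
    rw [mem_ball] at hx hv ⊢
    have := dist_triangle x v z
    linarith
  have hvz : v ∈ ball z (2 * T) := ball_subset_ball (by linarith) hv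
  have hmove : ∀ ζ ∈ ball v σ, ‖X ζ - X v‖ ≤ θ * d := by
    intro ζ hζ
    have h1 := (h.bilip (hsub hζ) hvz).2
    rw [mem_ball, dist_eq_norm] at hζ
    have h2 : 5 / 4 * ‖lam‖ * ‖ζ - v‖ ≤ 5 / 4 * ‖lam‖ * σ := by gcongr
    linarith
  have hall := fun ζ hζ => hvar (X ζ) (X v) d hd hdist (hmove ζ hζ)
  have hu : ∀ ζ ∈ ball v σ, HasDerivAt (nxt P Q s n X) (nxt P Q s n X ζ *
      (1 + n * lq P Q (X ζ) * deriv X ζ)) ζ := fun ζ hζ =>
    hasDerivAt_nxt hn (hall ζ hζ).1 (hall ζ hζ).2.1 (h.hdiff ζ (hsub hζ))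
  have hne : ∀ ζ ∈ ball v σ, nxt P Q s n X ζ ≠ 0 := by
    intro ζ hζ
    unfold nxt stp
    refine mul_ne_zero (Complex.exp_ne_zero _) (pow_ne_zero _ (div_ne_zero (mul_ne_zero hs ?_) ?_))
    · exact (hall ζ hζ).1
    · exact (hall ζ hζ).2.1
  obtain ⟨l, hl0, hl1, hl2⟩ := exists_log' (u := nxt P Q s n X)
    (G₀ := fun ζ => n * lq P Q (X ζ) * deriv X ζ) hσ hu hne
  refine ⟨l, hl0, fun ζ hζ => ⟨(hall ζ hζ).1, (hall ζ hζ).2.1⟩, hl1, hl2, ?_⟩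
  intro ζ hζ
  have h1 := (hall ζ hζ).2.2
  have h2 := h.deriv_var hv (σ := σ) (by linarith) hζ
  have h3 : ‖lam‖ / 2 / T * σ ≤ ‖lam‖ / 400 := by
    calc ‖lam‖ / 2 / T * σ ≤ ‖lam‖ / 2 / T * (T / 200) := by gcongr
      _ = ‖lam‖ / 400 := by field_simp; norm_num
  have h4 := h.deriv_bds hvz
  have h4' := (h.deriv_bds (hsub hζ)).2
  have h5 : ‖deriv X ζ - deriv X v‖ ≤ ‖deriv X v‖ / 300 := by linarith
  have h6 : ‖deriv X ζ‖ ≤ 301 / 300 * ‖deriv X v‖ := by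
    have := norm_sub_norm_le (deriv X ζ) (deriv X v)
    linarith
  have h7 : n * lq P Q (X ζ) * deriv X ζ - n * lq P Q (X v) * deriv X v =
      n * ((lq P Q (X ζ) - lq P Q (X v)) * deriv X ζ + lq P Q (X v) * (deriv X ζ - deriv X v)) := by
    ring
  rw [h7, norm_mul, norm_mul, norm_mul]
  have h8 : ‖(lq P Q (X ζ) - lq P Q (X v)) * deriv X ζ + lq P Q (X v) * (deriv X ζ - deriv X v)‖ ≤
      ‖lq P Q (X v)‖ * ‖deriv X v‖ / 100 := by
    refine (norm_add_le _ _).trans ?_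
    rw [norm_mul, norm_mul]
    have e1 : ‖lq P Q (X ζ) - lq P Q (X v)‖ * ‖deriv X ζ‖ ≤
        (1 / 200 * ‖lq P Q (X v)‖) * (301 / 300 * ‖deriv X v‖) := by gcongr
    have e2 : ‖lq P Q (X v)‖ * ‖deriv X ζ - deriv X v‖ ≤
        ‖lq P Q (X v)‖ * (‖deriv X v‖ / 300) := by gcongr
    have e3 : 0 ≤ ‖lq P Q (X v)‖ * ‖deriv X v‖ := by positivity
    nlinarith
  calc ‖(n : ℂ)‖ * ‖(lq P Q (X ζ) - lq P Q (X v)) * deriv X ζ +
        lq P Q (X v) * (deriv X ζ - deriv X v)‖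
      ≤ ‖(n : ℂ)‖ * (‖lq P Q (X v)‖ * ‖deriv X v‖ / 100) := by gcongr
    _ = ‖(n : ℂ)‖ * ‖lq P Q (X v)‖ * ‖deriv X v‖ / 100 := by ring

end Pool.Agent.Helper134.AR
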