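import Mathlib
import Pool.Agent.Helper134_AR.Loc

/-!
# The next curve
-/

set_option autoImplicit false

open Set Filter Topology Metric MeasureTheory

namespace Pool.Agent.Helper134.AR

open Pool.Agent.H762R2.Rt Pool.Agent.Helper134.FD

variable {P Q : Polynomial ℂ} {s : ℂ} {n : ℕ} {ρ : ℝ} {X : ℂ → ℂ} {lam₀ T : ℝ} {z lam : ℂ}

theorem Cur.step (hn : 1 ≤ n) (hs : s ≠ 0) {θ : ℝ} (hvar : Var P Q θ)
    (h : Cur lam₀ z T lam X) (hlam₀ : 0 < lam₀) {v : ℂ} (hv : v ∈ ball z T)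
    (hρ : 0 < ρ) (hnv : ρ < ‖nxt P Q s n X v‖ ∧ ‖nxt P Q s n X v‖ < ρ⁻¹)
    {θ' T' d g : ℝ} (hT' : 0 < T') (hg : g = n * ‖lq P Q (X v)‖ * ‖lam‖) (hg200 : 200 ≤ g)
    (hglow : lam₀ ≤ 3 / 4 * ρ * g) (hθ' : 0 < θ') (hθ1 : θ' ≤ 1 / 400) (hθ2 : 4 * θ' ≤ θ)
    (hθ3 : 2 * θ' ≤ ρ) (hd : 0 < d)
    (hdist : ∀ y ∈ (wro P Q * (P * Q)).roots.toFinset, d ≤ ‖X v - y‖)
    (a1 : T' ≤ θ' * T) (a2 : T' * ‖lam‖ ≤ θ' * d) (a3 : T' * g ≤ θ') :
    (∃ lam' : ℂ, Cur lam₀ v T' lam' (nxt P Q s n X) ∧ 3 / 4 * ρ * g ≤ ‖lam'‖) ∧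
    ∀ ζ ∈ ball v (2 * T'), ρ / 2 ≤ ‖nxt P Q s n X ζ‖ ∧ ‖nxt P Q s n X ζ‖ ≤ 2 / ρ := by
  have hT := h.hT
  have hT2 := h.T_le
  have hlam : 0 < ‖lam‖ := hlam₀.trans_le h.hlow
  obtain ⟨l, hl0, hPQ, hl1, hl2, hl3⟩ := h.loc (s := s) hn hs hvar hlam₀ hv (σ := 2 * T') (d := d)
    (by positivity) (by
      have : θ' * T ≤ 1 / 400 * T := by gcongr
      linarith) hd hdist (by
      have : 4 * θ' * d ≤ θ * d := by gcongr
      nlinarith)
  have hsub : closedBall v (2 * T') ⊆ ball z (2 * T) := by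
    intro x hx
    rw [mem_closedBall] at hx
    rw [mem_ball] at hv ⊢
    have := dist_triangle x v z
    have : θ' * T ≤ 1 / 400 * T := by gcongr
    linarith
  have hsub' : ball v (2 * T') ⊆ ball z (2 * T) := ball_subset_closedBall.trans hsub
  have hvz : v ∈ ball z (2 * T) := ball_subset_ball (by linarith) hv
  have hvv : v ∈ ball v (2 * T') := mem_ball_self (by positivity)
  set Λ : ℂ := n * lq P Q (X v) * deriv X v with hΛ
  have hdv := h.deriv_bds hvz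
  have hΛn : ‖Λ‖ = n * ‖lq P Q (X v)‖ * ‖deriv X v‖ := by
    rw [hΛ, norm_mul, norm_mul, Complex.norm_natCast]
  have hΛ1 : 3 / 4 * g ≤ ‖Λ‖ := by
    rw [hΛn, hg]
    calc 3 / 4 * (n * ‖lq P Q (X v)‖ * ‖lam‖) = n * ‖lq P Q (X v)‖ * (3 / 4 * ‖lam‖) := by ring
      _ ≤ _ := by gcongr; exact hdv.1
  have hΛ2 : ‖Λ‖ ≤ 5 / 4 * g := by
    rw [hΛn, hg]
    calc n * ‖lq P Q (X v)‖ * ‖deriv X v‖ ≤ n * ‖lq P Q (X v)‖ * (5 / 4 * ‖lam‖) := by
          gcongr; exact hdv.2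
      _ = _ := by ring
  -- the logarithm is small
  have hlsmall : ∀ ζ ∈ ball v (2 * T'), ‖l ζ‖ ≤ 1 / 100 := by
    intro ζ hζ
    have h1 := near_affine (convex_ball v (2 * T')) (f := l) (lam := Λ) (ε := 1 + ‖Λ‖ / 100)
      (fun x hx => (hl2 x hx).differentiableAt) (fun x hx => by
        rw [(hl2 x hx).deriv]
        have h1 := hl3 x hx
        have h2 : 1 + n * lq P Q (X x) * deriv X x - Λ = 1 + (n * lq P Q (X x) * deriv X x - Λ) := by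
          ring
        rw [h2]
        refine (norm_add_le _ _).trans ?_
        rw [norm_one]
        linarith) hζ hvv
    rw [hl0, sub_zero] at h1
    have h2 : ‖l ζ‖ ≤ ‖Λ * (ζ - v)‖ + (1 + ‖Λ‖ / 100) * ‖ζ - v‖ := by
      have := norm_sub_norm_le (l ζ) (Λ * (ζ - v))
      linarith
    rw [norm_mul] at h2
    have h3 : ‖ζ - v‖ ≤ 2 * T' := by
      rw [mem_ball, dist_eq_norm] at hζ
      exact hζ.le
    have h4 : ‖Λ‖ * ‖ζ - v‖ + (1 + ‖Λ‖ / 100) * ‖ζ - v‖ ≤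
        5 / 4 * g * (2 * T') + (1 + 5 / 4 * g / 100) * (2 * T') := by gcongr
    have h5 : θ' * T ≤ 1 / 400 * (1 / 2) := by gcongr
    nlinarith
  have hexp : ∀ ζ ∈ ball v (2 * T'), ‖Complex.exp (l ζ) - 1‖ ≤ 1 / 50 := by
    intro ζ hζ
    have h1 := hlsmall ζ hζ
    have h2 := Complex.norm_exp_sub_one_le (x := l ζ) (by linarith)
    linarith
  have hv1 : 0 < ‖nxt P Q s n X v‖ := hρ.trans hnv.1
  have hmod : ∀ ζ ∈ ball v (2 * T'), 49 / 50 * ‖nxt P Q s n X v‖ ≤ ‖nxt P Q s n X ζ‖ ∧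
      ‖nxt P Q s n X ζ‖ ≤ 51 / 50 * ‖nxt P Q s n X v‖ := by
    intro ζ hζ
    have h1 := hexp ζ hζ
    rw [hl1 ζ hζ, norm_mul]
    have h2 := norm_sub_norm_le (Complex.exp (l ζ)) 1
    have h3 := norm_sub_norm_le 1 (Complex.exp (l ζ))
    rw [norm_sub_rev] at h3
    rw [norm_one] at h2 h3
    constructor
    · rw [mul_comm]
      gcongr
      linarith
    · rw [mul_comm (51 / 50 : ℝ)]
      gcongr
      linarith
  refine ⟨⟨nxt P Q s n X v * Λ, ⟨hT', ?_, ?_, ?_, ?_, ?_⟩, ?_⟩, ?_⟩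
  · exact hsub.trans (ball_subset_closedBall.trans h.hsub)
  · intro ζ hζ
    exact (hasDerivAt_nxt hn (hPQ ζ hζ).1 (hPQ ζ hζ).2 (h.hdiff ζ (hsub' hζ))).differentiableAt
  · intro ζ hζ
    rw [(hasDerivAt_nxt hn (hPQ ζ hζ).1 (hPQ ζ hζ).2 (h.hdiff ζ (hsub' hζ))).deriv, hl1 ζ hζ]
    have h1 := hexp ζ hζ
    have h2 := hl3 ζ hζ
    set G := (n : ℂ) * lq P Q (X ζ) * deriv X ζ with hG
    have h3 : nxt P Q s n X v * Complex.exp (l ζ) * (1 + G) - nxt P Q s n X v * Λ =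
        nxt P Q s n X v * ((Complex.exp (l ζ) - 1) * (1 + G) + (1 + (G - Λ))) := by ring
    rw [h3, norm_mul, norm_mul]
    have h4 : ‖G‖ ≤ ‖Λ‖ + ‖Λ‖ / 100 := by
      have := norm_sub_norm_le G Λ
      linarith
    have h5 : ‖1 + G‖ ≤ 1 + (‖Λ‖ + ‖Λ‖ / 100) := by
      refine (norm_add_le _ _).trans ?_
      rw [norm_one]
      linarith
    have h6 : ‖(Complex.exp (l ζ) - 1) * (1 + G) + (1 + (G - Λ))‖ ≤ ‖Λ‖ / 4 := by
      refine (norm_add_le _ _).trans ?_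
      rw [norm_mul]
      have e1 : ‖Complex.exp (l ζ) - 1‖ * ‖1 + G‖ ≤ 1 / 50 * (1 + (‖Λ‖ + ‖Λ‖ / 100)) := by gcongr
      have e2 : ‖1 + (G - Λ)‖ ≤ 1 + ‖Λ‖ / 100 := by
        refine (norm_add_le _ _).trans ?_
        rw [norm_one]
        linarith
      linarith
    calc ‖nxt P Q s n X v‖ * ‖(Complex.exp (l ζ) - 1) * (1 + G) + (1 + (G - Λ))‖
        ≤ ‖nxt P Q s n X v‖ * (‖Λ‖ / 4) := by gcongr
      _ = _ := by ring
  · rw [norm_mul]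
    calc lam₀ ≤ 3 / 4 * ρ * g := hglow
      _ = ρ * (3 / 4 * g) := by ring
      _ ≤ ‖nxt P Q s n X v‖ * ‖Λ‖ := by gcongr; exact hnv.1.le
  · rw [norm_mul]
    calc ‖nxt P Q s n X v‖ * ‖Λ‖ * T' ≤ ρ⁻¹ * (5 / 4 * g) * T' := by
          gcongr; exact hnv.2.le
      _ = 5 / 4 * ρ⁻¹ * (T' * g) := by ring
      _ ≤ 5 / 4 * ρ⁻¹ * (ρ / 2) := by gcongr; linarith
      _ = 5 / 8 := by field_simp; norm_num
      _ ≤ 1 := by norm_num
  · rw [norm_mul]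
    calc 3 / 4 * ρ * g = ρ * (3 / 4 * g) := by ring
      _ ≤ ‖nxt P Q s n X v‖ * ‖Λ‖ := by gcongr; exact hnv.1.le
  · intro ζ hζ
    have h1 := hmod ζ hζ
    constructor
    · nlinarith [hnv.1]
    · have h2 : ‖nxt P Q s n X v‖ ≤ ρ⁻¹ := hnv.2.le
      have h3 : 2 / ρ = 2 * ρ⁻¹ := by ring
      rw [h3]
      linarith

/-- The strip: in a disc of definite size the parameters for which the next marked point has
modulus in a fixed range have small area. -/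
theorem Cur.strip (hn : 1 ≤ n) (hs : s ≠ 0) {θ : ℝ} (hvar : Var P Q θ)
    (h : Cur lam₀ z T lam X) (hlam₀ : 0 < lam₀) {v : ℂ} (hv : v ∈ ball z T)
    (hρ : 0 < ρ) (hρ1 : ρ < 1) (hnv : ρ < ‖nxt P Q s n X v‖ ∧ ‖nxt P Q s n X v‖ < ρ⁻¹)
    {σ d g : ℝ} (hσ : 0 < σ) (hg : g = n * ‖lq P Q (X v)‖ * ‖lam‖) (hg200 : 200 ≤ g)
    (hσT : σ ≤ T / 200) (hd : 0 < d)
    (hdist : ∀ y ∈ (wro P Q * (P * Q)).roots.toFinset, d ≤ ‖X v - y‖)
    (hσd : 5 / 4 * ‖lam‖ * σ ≤ θ * d) :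
    volume {x ∈ ball v σ | ρ / 2 ≤ ‖nxt P Q s n X x‖ ∧ ‖nxt P Q s n X x‖ ≤ 2 / ρ} ≤
      ENNReal.ofReal (12 * (Real.log (2 / ρ ^ 2) + 1) * σ / g) := by
  have hT := h.hT
  obtain ⟨l, hl0, hPQ, hl1, hl2, hl3⟩ := h.loc (s := s) hn hs hvar hlam₀ hv hσ hσT hd hdist hσd
  have hvz : v ∈ ball z (2 * T) := ball_subset_ball (by linarith) hv
  set Λ : ℂ := n * lq P Q (X v) * deriv X v with hΛ
  have hdv := h.deriv_bds hvz
  have hΛn : ‖Λ‖ = n * ‖lq P Q (X v)‖ * ‖deriv X v‖ := by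
    rw [hΛ, norm_mul, norm_mul, Complex.norm_natCast]
  have hΛ1 : 3 / 4 * g ≤ ‖Λ‖ := by
    rw [hΛn, hg]
    calc 3 / 4 * (n * ‖lq P Q (X v)‖ * ‖lam‖) = n * ‖lq P Q (X v)‖ * (3 / 4 * ‖lam‖) := by ring
      _ ≤ _ := by gcongr; exact hdv.1
  have hlogpos : 0 ≤ Real.log (2 / ρ ^ 2) := by
    apply Real.log_nonneg
    rw [one_le_div (by positivity)]
    nlinarith
  have hmain := strip_area (l := l) (v := v) (Λ := Λ) (σ := σ) (h := Real.log (2 / ρ ^ 2) + 1) hσ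
    (by linarith) (by linarith) (fun x hx => (hl2 x hx).differentiableAt) (by
      intro x hx
      rw [(hl2 x hx).deriv]
      have h1 := hl3 x hx
      have h2 : 1 + n * lq P Q (X x) * deriv X x - Λ = 1 + (n * lq P Q (X x) * deriv X x - Λ) := by
        ring
      rw [h2]
      refine (norm_add_le _ _).trans ?_
      rw [norm_one]
      linarith) hl0
  refine (measure_mono ?_).trans (hmain.trans ?_)
  · rintro x ⟨hx, hx1, hx2⟩
    refine ⟨hx, ?_⟩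
    rw [hl1 x hx, norm_mul, Complex.norm_exp] at hx1 hx2
    have hv1 : 0 < ‖nxt P Q s n X v‖ := hρ.trans hnv.1
    have e1 : Real.exp (l x).re ≤ 2 / ρ ^ 2 := by
      have h1 : ρ * Real.exp (l x).re ≤ 2 / ρ := by
        refine le_trans ?_ hx2
        gcongr
        exact hnv.1.le
      rw [le_div_iff₀ hρ] at h1
      rw [le_div_iff₀ (by positivity)]
      nlinarith
    have e2 : (2 / ρ ^ 2)⁻¹ ≤ Real.exp (l x).re := by
      have h1 : ρ / 2 ≤ ρ⁻¹ * Real.exp (l x).re := by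
        refine hx1.trans ?_
        gcongr
        exact hnv.2.le
      rw [inv_div]
      have h2 : ρ * (ρ / 2) ≤ ρ * (ρ⁻¹ * Real.exp (l x).re) := by gcongr
      rw [← mul_assoc, mul_inv_cancel₀ hρ.ne', one_mul] at h2
      nlinarith
    have e3 : (l x).re ≤ Real.log (2 / ρ ^ 2) := by
      rw [Real.le_log_iff_exp_le (by positivity)]
      exact e1
    have e4 : -Real.log (2 / ρ ^ 2) ≤ (l x).re := by
      rw [← Real.log_inv]
      rw [Real.log_le_iff_le_exp (by positivity)]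
      exact e2
    rw [abs_lt]
    constructor <;> linarith
  · apply ENNReal.ofReal_le_ofReal
    rw [div_le_div_iff₀ (by linarith) (by linarith)]
    have h1 : 0 ≤ (Real.log (2 / ρ ^ 2) + 1) * σ := by positivity
    nlinarith

end Pool.Agent.Helper134.AR
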