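import Mathlib
import Pool.Agent.Helper134_AR.Stp

/-!
# Areas near the special points
-/

set_option autoImplicit false

open Set Filter Topology Metric MeasureTheory

namespace Pool.Agent.Helper134.AR

open Pool.Agent.H762R2.Rt Pool.Agent.Helper134.FD

variable {P Q : Polynomial ℂ} {s : ℂ} {n : ℕ} {ρ : ℝ} {X : ℂ → ℂ} {lam₀ T : ℝ} {z lam : ℂ}

theorem Cur.near_area (h : Cur lam₀ z T lam X) (hlam₀ : 0 < lam₀) (y : ℂ) {e : ℝ} (he : 0 < e) :
    volume {x ∈ ball z (2 * T) | ‖X x - y‖ < e} ≤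
      ENNReal.ofReal (9 * Real.pi * e ^ 2 / ‖lam‖ ^ 2) := by
  have hlam : 0 < ‖lam‖ := hlam₀.trans_le h.hlow
  rcases Set.eq_empty_or_nonempty {x ∈ ball z (2 * T) | ‖X x - y‖ < e} with h0 | ⟨x₀, hx₀⟩
  · rw [h0, measure_empty]
    exact zero_le
  · have hsub : {x ∈ ball z (2 * T) | ‖X x - y‖ < e} ⊆ closedBall x₀ (3 * e / ‖lam‖) := by
      intro x hx
      rw [mem_closedBall, dist_eq_norm, le_div_iff₀ hlam]
      have h1 := (h.bilip hx.1 hx₀.1).1
      have h2 := norm_sub_le (X x - y) (X x₀ - y)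
      rw [sub_sub_sub_cancel_right] at h2
      have h3 := hx.2
      have h4 := hx₀.2
      nlinarith [norm_nonneg (x - x₀)]
    refine (measure_mono hsub).trans ?_
    rw [volume_cball _ (by positivity)]
    apply ENNReal.ofReal_le_ofReal
    rw [div_pow]
    apply le_of_eq
    ring

theorem Cur.near_union (h : Cur lam₀ z T lam X) (hlam₀ : 0 < lam₀) (A : Finset ℂ) {e : ℝ}
    (he : 0 < e) :
    volume {x ∈ ball z (2 * T) | ∃ y ∈ A, ‖X x - y‖ < e} ≤
      ENNReal.ofReal (A.card * (9 * Real.pi * e ^ 2 / ‖lam‖ ^ 2)) := by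
  have hsub : {x ∈ ball z (2 * T) | ∃ y ∈ A, ‖X x - y‖ < e} ⊆
      ⋃ y ∈ A, {x ∈ ball z (2 * T) | ‖X x - y‖ < e} := by
    rintro x ⟨hx, y, hy, hxy⟩
    simp only [mem_iUnion]
    exact ⟨y, hy, hx, hxy⟩
  refine (measure_mono hsub).trans ((measure_biUnion_finset_le A _).trans ?_)
  refine (Finset.sum_le_sum fun y _ => h.near_area hlam₀ y he).trans ?_
  rw [Finset.sum_const, nsmul_eq_mul, ENNReal.ofReal_mul (by positivity), ENNReal.ofReal_natCast]

theorem tsum_le_of_disjoint {u : Set ℂ} (hu : u.Countable) {f : ℂ → Set ℂ}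
    (hd : u.PairwiseDisjoint f) (hm : ∀ b ∈ u, MeasurableSet (f b)) {E : Set ℂ}
    (hE : ∀ b ∈ u, f b ⊆ E) : ∑' b : u, volume (f b) ≤ volume E := by
  rw [← measure_biUnion hu hd hm]
  exact measure_mono (iUnion₂_subset hE)

theorem inv_hasDerivAt {x y : ℂ} (hd : DifferentiableAt ℂ X x) (hne : X x ≠ y) :
    HasDerivAt (fun x => (X x - y)⁻¹) (-deriv X x / (X x - y) ^ 2) x := by
  have h1 := (hd.hasDerivAt.sub_const y).fun_inv (sub_ne_zero.2 hne)
  exact h1

theorem Cur.inv_inj (h : Cur lam₀ z T lam X) (hlam₀ : 0 < lam₀) (y : ℂ) :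
    InjOn (fun x => (X x - y)⁻¹) (ball z (2 * T)) := by
  have hlam : 0 < ‖lam‖ := hlam₀.trans_le h.hlow
  intro x hx x' hx' hxx
  have h1 : X x = X x' := by
    have h2 : X x - y = X x' - y := inv_injective hxx
    linear_combination h2
  have h2 := (h.bilip hx hx').1
  rw [h1, sub_self, norm_zero] at h2
  by_contra hne
  have h3 : 0 < ‖x - x'‖ := norm_pos_iff.2 (sub_ne_zero.2 hne)
  have h4 : 0 < 3 / 4 * ‖lam‖ * ‖x - x'‖ := by positivity
  linarith

theorem Cur.inv_area (h : Cur lam₀ z T lam X) (hlam₀ : 0 < lam₀) {y b : ℂ} {r D : ℝ}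
    (hsub : closedBall b r ⊆ ball z (2 * T)) (hne : ∀ x ∈ closedBall b r, X x ≠ y)
    (hD : ∀ x ∈ closedBall b r, ‖X x - y‖ ≤ D) :
    ENNReal.ofReal ((3 / 4 * ‖lam‖ / D ^ 2) ^ 2) * volume (closedBall b r) ≤
      volume ((fun x => (X x - y)⁻¹) '' closedBall b r) := by
  apply area_le measurableSet_closedBall (f' := fun x => -deriv X x / (X x - y) ^ 2)
  · intro x hx
    exact inv_hasDerivAt (h.hdiff x (hsub hx)) (hne x hx)
  · exact (h.inv_inj hlam₀ y).mono hsub
  · positivity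
  · intro x hx
    have h1 := (h.deriv_bds (hsub hx)).1
    have h2 := hD x hx
    have h3 : 0 < ‖X x - y‖ := norm_pos_iff.2 (sub_ne_zero.2 (hne x hx))
    rw [norm_div, norm_neg, norm_pow]
    gcongr

theorem Cur.inv_sum (h : Cur lam₀ z T lam X) (hlam₀ : 0 < lam₀) {y : ℂ} {u : Set ℂ}
    (hu : u.Countable) {r : ℂ → ℝ} (hd : u.PairwiseDisjoint fun b => closedBall b (r b))
    (hsub : ∀ b ∈ u, closedBall b (r b) ⊆ ball z (2 * T)) {e : ℝ} (he : 0 < e)
    (hfar : ∀ b ∈ u, ∀ x ∈ closedBall b (r b), e ≤ ‖X x - y‖) :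
    ∑' b : u, volume ((fun x => (X x - y)⁻¹) '' closedBall (b : ℂ) (r b)) ≤
      ENNReal.ofReal (Real.pi / e ^ 2) := by
  have hinj := h.inv_inj hlam₀ y
  have hne : ∀ b ∈ u, ∀ x ∈ closedBall b (r b), X x ≠ y := by
    intro b hb x hx h0
    have := hfar b hb x hx
    rw [h0, sub_self, norm_zero] at this
    linarith
  have h1 := tsum_le_of_disjoint hu
    (f := fun b => (fun x => (X x - y)⁻¹) '' closedBall b (r b)) (E := closedBall 0 e⁻¹) ?_ ?_ ?_
  · refine h1.trans ?_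
    rw [volume_cball _ (by positivity), inv_pow, ← div_eq_mul_inv]
  · intro b hb b' hb' hbb
    have h2 := hd hb hb' hbb
    rw [Function.onFun, Set.disjoint_left] at h2 ⊢
    rintro w ⟨x, hx, rfl⟩ ⟨x', hx', hxx⟩
    have h3 := hinj (hsub b' hb' hx') (hsub b hb hx) hxx
    rw [h3] at hx'
    exact h2 hx hx'
  · intro b hb
    have hcont : ContinuousOn (fun x => (X x - y)⁻¹) (closedBall b (r b)) := fun x hx =>
      (inv_hasDerivAt (h.hdiff x (hsub b hb hx))
        (hne b hb x hx)).continuousAt.continuousWithinAt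
    exact ((isCompact_closedBall b (r b)).image_of_continuousOn hcont).measurableSet
  · rintro b hb _ ⟨x, hx, rfl⟩
    rw [mem_closedBall_zero_iff, norm_inv]
    exact inv_anti₀ he (hfar b hb x hx)

/-- The distance to a finite set, cut off at one. -/
theorem exists_t (A : Finset ℂ) (w : ℂ) : ∃ t : ℝ, 0 ≤ t ∧ t ≤ 1 ∧ (∀ y ∈ A, t ≤ ‖w - y‖) ∧
    (t = 1 ∨ ∃ y ∈ A, ‖w - y‖ = t) := by
  induction A using Finset.induction_on with
  | empty => exact ⟨1, zero_le_one, le_rfl, by simp, Or.inl rfl⟩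
  | insert a A ha ih =>
    obtain ⟨t, h0, h1, h2, h3⟩ := ih
    by_cases hlt : ‖w - a‖ ≤ t
    · refine ⟨‖w - a‖, norm_nonneg _, hlt.trans h1, ?_, Or.inr ⟨a, by simp, rfl⟩⟩
      intro y hy
      rcases Finset.mem_insert.1 hy with rfl | hy
      · exact le_rfl
      · exact hlt.trans (h2 y hy)
    · push Not at hlt
      refine ⟨t, h0, h1, ?_, ?_⟩
      · intro y hy
        rcases Finset.mem_insert.1 hy with rfl | hy
        · exact hlt.le
        · exact h2 y hy
      · rcases h3 with h3 | ⟨y, hy, h3⟩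
        · exact Or.inl h3
        · exact Or.inr ⟨y, by simp [hy], h3⟩

end Pool.Agent.Helper134.AR
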