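import Mathlib
import Pool.Agent.Helper134_AR.Near

/-!
# The self-improving inequality
-/

set_option autoImplicit false

open Set Filter Topology Metric MeasureTheory

namespace Pool.Agent.Helper134.AR

open Pool.Agent.H762R2.Rt Pool.Agent.Helper134.FD

variable {P Q : Polynomial ℂ} {s : ℂ} {n : ℕ} {ρ θ' : ℝ} {X : ℂ → ℂ} {lam₀ T : ℝ} {z lam : ℂ}

/-- The special points. -/
noncomputable def special (P Q : Polynomial ℂ) : Finset ℂ := (wro P Q * (P * Q)).roots.toFinset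

/-- The centres of the covering. -/
structure Ctr (P Q : Polynomial ℂ) (s : ℂ) (n : ℕ) (ρ θ' : ℝ) (z : ℂ) (T : ℝ) (lam : ℂ)
    (X : ℂ → ℂ) (b : ℂ) (r t : ℝ) : Prop where
  hb : b ∈ ball z T
  hbad : b ∈ Bad P Q s n ρ X
  hr : 0 < r
  h1 : 6 * r ≤ θ' * T
  h2 : 6 * r * ‖lam‖ ≤ θ' * t
  h3 : 6 * r * (n * ‖lq P Q (X b)‖ * ‖lam‖) ≤ θ'
  ht0 : 0 < t
  ht1 : t ≤ 1
  hfar : ∀ y ∈ special P Q, t ≤ ‖X b - y‖
  hatt : t = 1 ∨ ∃ y ∈ special P Q, ‖X b - y‖ = t
  hnx : ∀ x ∈ closedBall b r, ρ / 2 ≤ ‖nxt P Q s n X x‖ ∧ ‖nxt P Q s n X x‖ ≤ 2 / ρ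

/-- The union of the discs of the covering. -/
def Eset (P Q : Polynomial ℂ) (s : ℂ) (n : ℕ) (ρ θ' : ℝ) (z : ℂ) (T : ℝ) (lam : ℂ)
    (X : ℂ → ℂ) : Set ℂ :=
  {x | ∃ b r t, Ctr P Q s n ρ θ' z T lam X b r t ∧ x ∈ closedBall b r}

/-- The lower bound for the logarithmic derivative. -/
def Low (P Q : Polynomial ℂ) (s : ℂ) (n : ℕ) (ρ c : ℝ) (m : ℕ) : Prop :=
  ∀ ζ ∈ closedBall (0 : ℂ) 1, ∀ w : ℂ, ρ < ‖w‖ → ‖w‖ < ρ⁻¹ → ρ < ‖stp P Q s n ζ w‖ →
    ‖stp P Q s n ζ w‖ < ρ⁻¹ → ∀ e : ℝ, 0 ≤ e → e ≤ 1 → (∀ y ∈ special P Q, e ≤ ‖w - y‖) →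
    c * e ^ (m - 1) ≤ ‖lq P Q w‖

theorem improve (hn : 1 ≤ n) (hs : s ≠ 0) {θ : ℝ} (hvar : Var P Q θ) (hlam₀ : 0 < lam₀)
    (hρ : 0 < ρ) (hθ' : 0 < θ') (hθ1 : θ' ≤ 1 / 400) (hθ2 : 4 * θ' ≤ θ)
    (hθ3 : 2 * θ' ≤ ρ) {c G T₀ : ℝ} {m : ℕ} (hm : 2 ≤ m) (hc : 0 < c) (hT₀ : 0 < T₀)
    (hT₀1 : T₀ ≤ 1) (hG : G = n * c * T₀ ^ (m - 1)) (hG1 : 200 ≤ G * lam₀) (hG2 : 4 / 3 ≤ ρ * G)
    (hlow : Low P Q s n ρ c m) {M ε : ℝ} (hM0 : 0 ≤ M)
    (hM : ∀ (z : ℂ) (T : ℝ) (lam : ℂ) (X : ℂ → ℂ), Cur lam₀ z T lam X →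
      volume (Bad P Q s n ρ X ∩ ball z T) ≤ ENNReal.ofReal (M / ‖lam‖ ^ 2))
    (h : Cur lam₀ z T lam X) (hε : 0 ≤ ε)
    (hE : volume (Eset P Q s n ρ θ' z T lam X) ≤ ENNReal.ofReal (ε / ‖lam‖ ^ 2)) :
    volume (Bad P Q s n ρ X ∩ ball z T) ≤ ENNReal.ofReal
      (((special P Q).card * (9 * Real.pi * T₀ ^ 2) + 16 * M / (9 * ρ ^ 2) *
        ((144 + 4096 * (special P Q).card) / (θ' ^ 2 * G ^ 2) +
          36 * ε / (Real.pi * θ' ^ 2))) / ‖lam‖ ^ 2) := by
  have hT := h.hT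
  have hT2 := h.T_le
  have hlam : 0 < ‖lam‖ := hlam₀.trans_le h.hlow
  have hpi := Real.pi_pos
  have hn0 : (0 : ℝ) < n := by exact_mod_cast hn
  have hG0 : 0 < G := by
    rw [hG]
    positivity
  set A := special P Q with hA
  choose t ht0 ht1 htf hta using fun v => exists_t A (X v)
  obtain ⟨g, hg⟩ : ∃ g : ℂ → ℝ, ∀ v, g v = n * ‖lq P Q (X v)‖ * ‖lam‖ := ⟨_, fun _ => rfl⟩
  set N1 : Set ℂ := {v | v ∈ Bad P Q s n ρ X ∧ v ∈ ball z T ∧ T₀ ≤ t v} with hN1
  -- lower bounds for `g`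
  have hlq : ∀ v ∈ N1, c * t v ^ (m - 1) ≤ ‖lq P Q (X v)‖ := by
    rintro v ⟨hv1, hv2, hv3⟩
    have hv0 : v ∈ closedBall (0 : ℂ) 1 := by
      apply h.hsub
      rw [mem_ball] at hv2
      rw [mem_closedBall]
      linarith
    exact hlow v hv0 (X v) (Bad_zero hv1).1 (Bad_zero hv1).2 (Bad_one hv1).1 (Bad_one hv1).2
      (t v) (ht0 v) (ht1 v) (htf v)
  have hg1 : ∀ v ∈ N1, G * ‖lam‖ ≤ g v := by
    intro v hv
    rw [hg, hG]
    have h1 : c * T₀ ^ (m - 1) ≤ ‖lq P Q (X v)‖ := by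
      refine le_trans ?_ (hlq v hv)
      gcongr
      exact hv.2.2
    calc n * c * T₀ ^ (m - 1) * ‖lam‖ = n * (c * T₀ ^ (m - 1)) * ‖lam‖ := by ring
      _ ≤ _ := by gcongr
  have hg2 : ∀ v ∈ N1, G / T₀ * t v * ‖lam‖ ≤ g v := by
    intro v hv
    rw [hg, hG]
    have h0 := hlq v hv
    have h1 : c * (T₀ ^ (m - 2) * t v) ≤ ‖lq P Q (X v)‖ := by
      refine le_trans ?_ h0
      have h2 : t v ^ (m - 1) = t v ^ (m - 2) * t v := by
        rw [← pow_succ]
        congr 1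
        omega
      rw [h2]
      have := ht0 v
      gcongr
      exact hv.2.2
    have h2 : n * c * T₀ ^ (m - 1) / T₀ = n * (c * T₀ ^ (m - 2)) := by
      have h3 : T₀ ^ (m - 1) = T₀ ^ (m - 2) * T₀ := by
        rw [← pow_succ]
        congr 1
        omega
      rw [h3]
      field_simp
    rw [h2]
    calc n * (c * T₀ ^ (m - 2)) * t v * ‖lam‖ = n * (c * (T₀ ^ (m - 2) * t v)) * ‖lam‖ := by ring
      _ ≤ _ := by gcongr
  have hg0 : ∀ v ∈ N1, 0 < g v := fun v hv => lt_of_lt_of_le (by positivity) (hg1 v hv)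
  have htpos : ∀ v ∈ N1, 0 < t v := fun v hv => hT₀.trans_le hv.2.2
  -- the radii
  obtain ⟨T', hT'⟩ : ∃ T' : ℂ → ℝ, ∀ v, T' v = θ' * min (min T (t v / ‖lam‖)) (1 / g v) :=
    ⟨_, fun _ => rfl⟩
  have hT'0 : ∀ v ∈ N1, 0 < T' v := by
    intro v hv
    have h1 := htpos v hv
    have h2 := hg0 v hv
    rw [hT']
    positivity
  have hT'1 : ∀ v, T' v ≤ θ' * T := by
    intro v
    rw [hT']
    gcongr
    exact (min_le_left _ _).trans (min_le_left _ _)
  have hT'2 : ∀ v, T' v * ‖lam‖ ≤ θ' * t v := by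
    intro v
    have h1 : T' v ≤ θ' * (t v / ‖lam‖) := by
      rw [hT']
      gcongr
      exact (min_le_left _ _).trans (min_le_right _ _)
    calc T' v * ‖lam‖ ≤ θ' * (t v / ‖lam‖) * ‖lam‖ := by gcongr
      _ = θ' * t v := by field_simp
  have hT'3 : ∀ v ∈ N1, T' v * g v ≤ θ' := by
    intro v hv
    have h2 := hg0 v hv
    have h1 : T' v ≤ θ' * (1 / g v) := by
      rw [hT']
      gcongr
      exact min_le_right _ _
    calc T' v * g v ≤ θ' * (1 / g v) * g v := by gcongr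
      _ = θ' := by field_simp
  have hstep : ∀ v ∈ N1, (∃ lam' : ℂ, Cur lam₀ v (T' v) lam' (nxt P Q s n X) ∧
      3 / 4 * ρ * g v ≤ ‖lam'‖) ∧
      ∀ ζ ∈ ball v (2 * T' v), ρ / 2 ≤ ‖nxt P Q s n X ζ‖ ∧ ‖nxt P Q s n X ζ‖ ≤ 2 / ρ := by
    intro v hv
    have h1 : G * lam₀ ≤ g v := le_trans (by gcongr; exact h.hlow) (hg1 v hv)
    refine h.step hn hs hvar hlam₀ hv.2.1 hρ (Bad_one hv.1) (hT'0 v hv) (hg v) (by linarith) ?_
      hθ' hθ1 hθ2 hθ3 (htpos v hv) (htf v) (hT'1 v) (hT'2 v) (hT'3 v hv)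
    calc lam₀ = 3 / 4 * (4 / 3) * lam₀ := by ring
      _ ≤ 3 / 4 * (ρ * G) * lam₀ := by gcongr
      _ = 3 / 4 * ρ * (G * lam₀) := by ring
      _ ≤ 3 / 4 * ρ * g v := by gcongr
  have hvol : ∀ v ∈ N1, volume (Bad P Q s n ρ X ∩ ball v (T' v)) ≤
      ENNReal.ofReal (M / (3 / 4 * ρ * g v) ^ 2) := by
    intro v hv
    obtain ⟨⟨lam', hcur, hlam'⟩, -⟩ := hstep v hv
    have h1 := hg0 v hv
    refine (measure_mono (inter_subset_inter_left _ Bad_nxt)).trans ((hM _ _ _ _ hcur).trans ?_)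
    apply ENNReal.ofReal_le_ofReal
    gcongr
  -- Vitali
  obtain ⟨r, hr⟩ : ∃ r : ℂ → ℝ, ∀ v, r v = T' v / 6 := ⟨_, fun _ => rfl⟩
  have hr0 : ∀ v ∈ N1, 0 < r v := fun v hv => by
    have := hT'0 v hv
    rw [hr]
    positivity
  obtain ⟨u, huN, hudisj, hucov⟩ := Vitali.exists_disjoint_subfamily_covering_enlargement_closedBall
    N1 (fun v => v) r T (fun v hv => by
      have h1 := hT'1 v
      have h2 : θ' * T ≤ 1 * T := by gcongr; linarith
      rw [hr]
      have := hT'0 v hv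
      linarith) 5 (by norm_num)
  have hucount : u.Countable := by
    apply hudisj.countable_of_nonempty_interior
    intro b hb
    refine ⟨b, ?_⟩
    exact ball_subset_interior_closedBall (mem_ball_self (hr0 b (huN hb)))
  have hcover : N1 ⊆ ⋃ b ∈ u, (Bad P Q s n ρ X ∩ ball b (T' b)) := by
    intro v hv
    obtain ⟨b, hb, hsub⟩ := hucov v hv
    have h1 := hsub (mem_closedBall_self (hr0 v hv).le)
    simp only [mem_iUnion]
    refine ⟨b, hb, hv.1, ?_⟩
    rw [mem_closedBall] at h1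
    rw [mem_ball]
    have h2 := hT'0 b (huN hb)
    rw [hr] at h1
    linarith
  -- inside the double disc
  have hin : ∀ b ∈ u, closedBall b (r b) ⊆ ball z (2 * T) := by
    intro b hb x hx
    have h1 := hT'1 b
    have h2 : θ' * T ≤ 1 * T := by gcongr; linarith
    have h3 := (huN hb).2.1
    have h4 := hT'0 b (huN hb)
    rw [hr, mem_closedBall] at hx
    rw [mem_ball] at h3 ⊢
    have := dist_triangle x b z
    linarith
  have hmove : ∀ b ∈ u, ∀ x ∈ closedBall b (r b), ‖X x - X b‖ ≤ t b / 2 := by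
    intro b hb x hx
    have hbb : b ∈ ball z (2 * T) := hin b hb (mem_closedBall_self (hr0 b (huN hb)).le)
    have h1 := (h.bilip (hin b hb hx) hbb).2
    have h2 := hT'2 b
    rw [hr, mem_closedBall, dist_eq_norm] at hx
    have h3 : 5 / 4 * ‖lam‖ * ‖x - b‖ ≤ 5 / 4 * ‖lam‖ * (T' b / 6) := by gcongr
    have h4 : θ' * t b ≤ 1 * t b := by
      have := ht0 b
      gcongr
      linarith
    have h5 := ht0 b
    nlinarith
  have hfar : ∀ y ∈ A, ∀ b ∈ u, ∀ x ∈ closedBall b (r b), T₀ / 2 ≤ ‖X x - y‖ := by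
    intro y hy b hb x hx
    have h1 := hmove b hb x hx
    have h2 := htf b y hy
    have h3 := (huN hb).2.2
    have h4 := norm_sub_le (X x - y) (X x - X b)
    rw [sub_sub_sub_cancel_left] at h4
    linarith
  -- pointwise bound
  obtain ⟨cA, hcA⟩ : ∃ cA : ℝ, cA = 36 / (Real.pi * θ' ^ 2 * T ^ 2 * G ^ 2 * ‖lam‖ ^ 2) := ⟨_, rfl⟩
  obtain ⟨cB, hcB⟩ : ∃ cB : ℝ, cB = 1024 * T₀ ^ 2 / (Real.pi * θ' ^ 2 * G ^ 2 * ‖lam‖ ^ 2) :=
    ⟨_, rfl⟩
  obtain ⟨cC, hcC⟩ : ∃ cC : ℝ, cC = 36 / (Real.pi * θ' ^ 2) := ⟨_, rfl⟩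
  have hcA0 : 0 ≤ cA := by rw [hcA]; positivity
  have hcB0 : 0 ≤ cB := by rw [hcB]; positivity
  have hcC0 : 0 ≤ cC := by rw [hcC]; positivity
  have hpt : ∀ b ∈ u, ENNReal.ofReal (1 / g b ^ 2) ≤
      ENNReal.ofReal cA * volume (closedBall b (r b)) +
      ENNReal.ofReal cB * ∑ y ∈ A, volume ((fun x => (X x - y)⁻¹) '' closedBall b (r b)) +
      ENNReal.ofReal cC * volume (closedBall b (r b)) := by
    intro b hb
    have hbN := huN hb
    have hgb := hg0 b hbN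
    have htb := htpos b hbN
    have hvolb := volume_cball b (hr0 b hbN).le
    have hrb : r b = T' b / 6 := hr b
    have hTb : T' b = θ' * min (min T (t b / ‖lam‖)) (1 / g b) := hT' b
    rcases min_cases (min T (t b / ‖lam‖)) (1 / g b) with ⟨hmin, hle⟩ | ⟨hmin, hlt⟩
    · rcases min_cases T (t b / ‖lam‖) with ⟨hmin', hle'⟩ | ⟨hmin', hlt'⟩
      · -- the minimum is `T`
        refine le_trans ?_ (le_trans le_self_add le_self_add)
        rw [hvolb, ← ENNReal.ofReal_mul hcA0]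
        apply ENNReal.ofReal_le_ofReal
        rw [hrb, hTb, hmin, hmin', hcA]
        have h1 : 36 / (Real.pi * θ' ^ 2 * T ^ 2 * G ^ 2 * ‖lam‖ ^ 2) *
            (Real.pi * (θ' * T / 6) ^ 2) = 1 / (G * ‖lam‖) ^ 2 := by
          field_simp
          norm_num
        rw [h1]
        have h2 := hg1 b hbN
        gcongr
      · -- the minimum is `t / |lam|`
        refine le_trans ?_ (le_trans le_add_self le_self_add)
        have htlt : t b < 1 := by
          rw [div_lt_iff₀ hlam] at hlt'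
          have := h.hsize
          linarith
        obtain ⟨y, hy, hyt⟩ : ∃ y ∈ A, ‖X b - y‖ = t b := by
          rcases hta b with h1 | h1
          · linarith
          · exact h1
        have hne : ∀ x ∈ closedBall b (r b), X x ≠ y := by
          intro x hx h0
          have := hfar y hy b hb x hx
          rw [h0, sub_self, norm_zero] at this
          linarith
        have hD : ∀ x ∈ closedBall b (r b), ‖X x - y‖ ≤ 2 * t b := by
          intro x hx
          have h1 := hmove b hb x hx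
          have h2 := norm_add_le (X x - X b) (X b - y)
          rw [sub_add_sub_cancel] at h2
          linarith
        have h1 := h.inv_area hlam₀ (hin b hb) hne hD
        have h2 : volume ((fun x => (X x - y)⁻¹) '' closedBall b (r b)) ≤
            ∑ y ∈ A, volume ((fun x => (X x - y)⁻¹) '' closedBall b (r b)) :=
          Finset.single_le_sum (f := fun y => volume ((fun x => (X x - y)⁻¹) '' closedBall b (r b)))
            (fun _ _ => zero_le) hy
        refine le_trans ?_ (mul_le_mul_right (h1.trans h2) _)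
        rw [hvolb, ← ENNReal.ofReal_mul (by positivity), ← ENNReal.ofReal_mul hcB0]
        apply ENNReal.ofReal_le_ofReal
        rw [hrb, hTb, hmin, hmin', hcB]
        have h3 : 1024 * T₀ ^ 2 / (Real.pi * θ' ^ 2 * G ^ 2 * ‖lam‖ ^ 2) *
            ((3 / 4 * ‖lam‖ / (2 * t b) ^ 2) ^ 2 * (Real.pi * (θ' * (t b / ‖lam‖) / 6) ^ 2)) =
            1 / (G / T₀ * t b * ‖lam‖) ^ 2 := by
          field_simp
          norm_num
        rw [h3]
        have h4 := hg2 b hbN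
        gcongr
    · -- the minimum is `1 / g`
      refine le_trans ?_ le_add_self
      rw [hvolb, ← ENNReal.ofReal_mul hcC0]
      apply ENNReal.ofReal_le_ofReal
      rw [hrb, hTb, hmin, hcC]
      apply le_of_eq
      field_simp
      norm_num
  -- the three sums
  have hsumA : ∑' b : u, volume (closedBall (b : ℂ) (r b)) ≤
      ENNReal.ofReal (Real.pi * (2 * T) ^ 2) := by
    rw [← volume_oball z (by positivity)]
    exact tsum_le_of_disjoint hucount hudisj (fun b _ => measurableSet_closedBall) hin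
  have hsumB : ∀ y ∈ A, ∑' b : u, volume ((fun x => (X x - y)⁻¹) '' closedBall (b : ℂ) (r b)) ≤
      ENNReal.ofReal (Real.pi / (T₀ / 2) ^ 2) := fun y hy =>
    h.inv_sum hlam₀ hucount hudisj hin (by positivity) (hfar y hy)
  have hsumC : ∑' b : u, volume (closedBall (b : ℂ) (r b)) ≤ ENNReal.ofReal (ε / ‖lam‖ ^ 2) := by
    refine (tsum_le_of_disjoint hucount hudisj (fun b _ => measurableSet_closedBall)
      (E := Eset P Q s n ρ θ' z T lam X) ?_).trans hE
    intro b hb x hx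
    have hbN := huN hb
    refine ⟨b, r b, t b, ⟨hbN.2.1, hbN.1, hr0 b hbN, ?_, ?_, ?_, htpos b hbN, ht1 b, htf b, hta b,
      ?_⟩, hx⟩
    · have := hT'1 b
      rw [hr]
      linarith
    · have := hT'2 b
      rw [hr]
      linarith
    · have := hT'3 b hbN
      rw [hr]
      have e : 6 * (T' b / 6) * (n * ‖lq P Q (X b)‖ * ‖lam‖) = T' b * g b := by
        rw [hg]; ring
      rw [e]
      exact this
    · intro x hx
      apply (hstep b hbN).2
      rw [hr, mem_closedBall] at hx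
      rw [mem_ball]
      have := hT'0 b hbN
      linarith
  -- total
  obtain ⟨κ, hκ⟩ : ∃ κ : ℝ, κ = 16 * M / (9 * ρ ^ 2) := ⟨_, rfl⟩
  have hκ0 : 0 ≤ κ := by rw [hκ]; positivity
  have hN1vol : volume N1 ≤ ENNReal.ofReal (κ * (cA * (Real.pi * (2 * T) ^ 2) +
      cB * (A.card * (Real.pi / (T₀ / 2) ^ 2)) + cC * (ε / ‖lam‖ ^ 2))) := by
    calc volume N1 ≤ volume (⋃ b ∈ u, (Bad P Q s n ρ X ∩ ball b (T' b))) := measure_mono hcover
      _ ≤ ∑' b : u, volume (Bad P Q s n ρ X ∩ ball (b : ℂ) (T' b)) :=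
          measure_biUnion_le _ hucount _
      _ ≤ ∑' b : u, ENNReal.ofReal κ * (ENNReal.ofReal cA * volume (closedBall (b : ℂ) (r b)) +
          ENNReal.ofReal cB * ∑ y ∈ A,
            volume ((fun x => (X x - y)⁻¹) '' closedBall (b : ℂ) (r b)) +
          ENNReal.ofReal cC * volume (closedBall (b : ℂ) (r b))) := by
          apply ENNReal.tsum_le_tsum
          intro b
          have hbN := huN b.2
          have hgb := hg0 b hbN
          refine (hvol b hbN).trans ?_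
          have e : M / (3 / 4 * ρ * g b) ^ 2 = κ * (1 / g b ^ 2) := by
            rw [hκ]
            field_simp
            ring
          rw [e, ENNReal.ofReal_mul hκ0]
          exact mul_le_mul_right (hpt b b.2) _
      _ = ENNReal.ofReal κ * (ENNReal.ofReal cA * ∑' b : u, volume (closedBall (b : ℂ) (r b)) +
          ENNReal.ofReal cB * ∑ y ∈ A,
            ∑' b : u, volume ((fun x => (X x - y)⁻¹) '' closedBall (b : ℂ) (r b)) +
          ENNReal.ofReal cC * ∑' b : u, volume (closedBall (b : ℂ) (r b))) := by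
          rw [ENNReal.tsum_mul_left, ENNReal.tsum_add, ENNReal.tsum_add, ENNReal.tsum_mul_left,
            ENNReal.tsum_mul_left, ENNReal.tsum_mul_left,
            Summable.tsum_finsetSum (fun _ _ => ENNReal.summable)]
      _ ≤ ENNReal.ofReal κ * (ENNReal.ofReal cA * ENNReal.ofReal (Real.pi * (2 * T) ^ 2) +
          ENNReal.ofReal cB * ∑ _y ∈ A, ENNReal.ofReal (Real.pi / (T₀ / 2) ^ 2) +
          ENNReal.ofReal cC * ENNReal.ofReal (ε / ‖lam‖ ^ 2)) := by
          gcongr with y hy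
          exact hsumB y hy
      _ = _ := by
          rw [Finset.sum_const, nsmul_eq_mul, ← ENNReal.ofReal_natCast,
            ← ENNReal.ofReal_mul hcA0, ← ENNReal.ofReal_mul (Nat.cast_nonneg _),
            ← ENNReal.ofReal_mul hcB0, ← ENNReal.ofReal_mul hcC0,
            ← ENNReal.ofReal_add (by positivity) (by positivity),
            ← ENNReal.ofReal_add (by positivity) (by positivity), ← ENNReal.ofReal_mul hκ0]
  have hsplit : Bad P Q s n ρ X ∩ ball z T ⊆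
      {x ∈ ball z (2 * T) | ∃ y ∈ A, ‖X x - y‖ < T₀} ∪ N1 := by
    rintro v ⟨hv1, hv2⟩
    by_cases htv : T₀ ≤ t v
    · exact Or.inr ⟨hv1, hv2, htv⟩
    · push Not at htv
      left
      refine ⟨ball_subset_ball (by linarith) hv2, ?_⟩
      rcases hta v with h1 | ⟨y, hy, h1⟩
      · linarith
      · exact ⟨y, hy, by rw [h1]; exact htv⟩
  refine (measure_mono hsplit).trans ((measure_union_le _ _).trans
    ((add_le_add (h.near_union hlam₀ A hT₀) hN1vol).trans ?_))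
  rw [← ENNReal.ofReal_add (by positivity) (by positivity)]
  apply ENNReal.ofReal_le_ofReal
  apply le_of_eq
  rw [hκ, hcA, hcB, hcC]
  field_simp
  ring

end Pool.Agent.Helper134.AR
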