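import Mathlib
import Pool.Agent.Helper134_AR.Improve

/-!
# The parameters for which the next marked point is not captured
-/

set_option autoImplicit false

open Set Filter Topology Metric MeasureTheory

namespace Pool.Agent.Helper134.AR

open Pool.Agent.H762R2.Rt Pool.Agent.Helper134.FD

variable {P Q : Polynomial ℂ} {ρ θ' lam₀ : ℝ}

theorem Ctr.glow {s : ℂ} {n : ℕ} {z lam b : ℂ} {T r t c τ : ℝ} {X : ℂ → ℂ} {m : ℕ}
    (h : Cur lam₀ z T lam X) (hlow : Low P Q s n ρ c m) (hτ : 0 ≤ τ) (hτt : τ ≤ t) (hc : 0 < c)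
    (hb : Ctr P Q s n ρ θ' z T lam X b r t) :
    n * (c * τ ^ (m - 1)) * ‖lam‖ ≤ n * ‖lq P Q (X b)‖ * ‖lam‖ := by
  have hT := h.hT
  have hv0 : b ∈ closedBall (0 : ℂ) 1 := by
    apply h.hsub
    have hv2 := hb.hb
    rw [mem_ball] at hv2
    rw [mem_closedBall]
    linarith
  have h1 := hlow b hv0 (X b) (Bad_zero hb.hbad).1 (Bad_zero hb.hbad).2 (Bad_one hb.hbad).1
    (Bad_one hb.hbad).2 t hb.ht0.le hb.ht1 hb.hfar
  have h2 : c * τ ^ (m - 1) ≤ ‖lq P Q (X b)‖ := le_trans (by gcongr) h1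
  gcongr

theorem eset_bound {θ c : ℝ} {m : ℕ} (hvar : Var P Q θ) (hθ : 0 < θ) (hlam₀ : 0 < lam₀)
    (hρ : 0 < ρ) (hρ1 : ρ < 1) (hθ' : 0 < θ') (hθ1 : θ' ≤ 1 / 400) (hc : 0 < c) {ε : ℝ}
    (hε : 0 < ε) : ∃ n₁ : ℕ, ∀ n : ℕ, n₁ ≤ n → ∀ s : ℂ, s ≠ 0 → Low P Q s n ρ c m →
      ∀ (z : ℂ) (T : ℝ) (lam : ℂ) (X : ℂ → ℂ), Cur lam₀ z T lam X →
      volume (Eset P Q s n ρ θ' z T lam X) ≤ ENNReal.ofReal (ε / ‖lam‖ ^ 2) := by
  have hpi := Real.pi_pos
  set A := special P Q with hA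
  -- constants
  obtain ⟨τ, hτ0, hτ1, hτ⟩ : ∃ τ : ℝ, 0 < τ ∧ τ ≤ 1 ∧ A.card * (9 * Real.pi * (2 * τ) ^ 2) ≤ ε / 2 := by
    refine ⟨min 1 (ε / (72 * Real.pi * (A.card + 1))), by positivity, min_le_left _ _, ?_⟩
    set τ := min 1 (ε / (72 * Real.pi * (A.card + 1))) with hτ
    have h0 : 0 ≤ τ := by positivity
    have h1 : τ ≤ 1 := min_le_left _ _
    have h2 : τ ≤ ε / (72 * Real.pi * (A.card + 1)) := min_le_right _ _
    have h3 : τ ^ 2 ≤ τ := by nlinarith
    rw [le_div_iff₀ (by positivity)] at h2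
    have h4 : (A.card : ℝ) * (9 * Real.pi * (2 * τ) ^ 2) = 36 * Real.pi * A.card * τ ^ 2 := by ring
    rw [h4]
    have h5 : 36 * Real.pi * A.card * τ ^ 2 ≤ 36 * Real.pi * (A.card + 1) * τ := by
      gcongr
      linarith
    nlinarith
  obtain ⟨ε₁, hε₁0, hε₁1, hε₁⟩ : ∃ ε₁ : ℝ, 0 < ε₁ ∧ ε₁ ≤ 1 ∧ 4 * Real.pi * ε₁ ^ 2 ≤ ε := by
    refine ⟨min 1 (ε / (4 * Real.pi)), by positivity, min_le_left _ _, ?_⟩
    set x := min 1 (ε / (4 * Real.pi)) with hx
    have h0 : 0 ≤ x := by positivity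
    have h1 : x ≤ 1 := min_le_left _ _
    have h2 : x ≤ ε / (4 * Real.pi) := min_le_right _ _
    have h3 : x ^ 2 ≤ x := by nlinarith
    rw [le_div_iff₀ (by positivity)] at h2
    have h5 : 4 * Real.pi * x ^ 2 ≤ 4 * Real.pi * x := by gcongr
    linarith
  obtain ⟨η, hη0, hη1, hη2⟩ : ∃ η : ℝ, 0 < η ∧ η ≤ 1 / 600 ∧ 4 * η ≤ θ * τ := by
    refine ⟨min (1 / 600) (θ * τ / 4), by positivity, min_le_left _ _, ?_⟩
    have := min_le_right (1 / 600 : ℝ) (θ * τ / 4)
    linarith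
  obtain ⟨F, -, hFfin, hF⟩ := (isCompact_closedBall (0 : ℂ) 1).finite_cover_balls hη0
  set F' : Finset ℂ := hFfin.toFinset with hF'
  have hlogpos : 0 ≤ Real.log (2 / ρ ^ 2) := by
    apply Real.log_nonneg
    rw [one_le_div (by positivity)]
    nlinarith
  obtain ⟨cτ, hcτ⟩ : ∃ cτ : ℝ, cτ = c * τ ^ (m - 1) := ⟨_, rfl⟩
  have hcτ0 : 0 < cτ := by rw [hcτ]; positivity
  obtain ⟨K, hK⟩ : ∃ K : ℝ, K = F'.card * (36 * (Real.log (2 / ρ ^ 2) + 1) * η) := ⟨_, rfl⟩
  obtain ⟨n₁, hn₁⟩ := exists_nat_ge (max (max 1 (200 / (cτ * lam₀)))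
    (max (θ' / (6 * cτ * η * ε₁)) (2 * K / (cτ * ε))))
  refine ⟨n₁, fun n hn s hs hlow z T lam X h => ?_⟩
  have hnn : (n₁ : ℝ) ≤ n := by exact_mod_cast hn
  have hb1 : 1 ≤ (n : ℝ) := (((le_max_left _ _).trans (le_max_left _ _)).trans hn₁).trans hnn
  have hb2 : 200 / (cτ * lam₀) ≤ n := (((le_max_right _ _).trans (le_max_left _ _)).trans hn₁).trans hnn
  have hb3 : θ' / (6 * cτ * η * ε₁) ≤ n :=
    (((le_max_left _ _).trans (le_max_right _ _)).trans hn₁).trans hnn
  have hb4 : 2 * K / (cτ * ε) ≤ n :=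
    (((le_max_right _ _).trans (le_max_right _ _)).trans hn₁).trans hnn
  rw [div_le_iff₀ (by positivity)] at hb2 hb3 hb4
  have hn1 : 1 ≤ n := by exact_mod_cast hb1
  have hT := h.hT
  have hlam : 0 < ‖lam‖ := hlam₀.trans_le h.hlow
  have hn0 : (0 : ℝ) < n := by linarith
  -- everything lies in the double disc
  have hin : ∀ b r t, Ctr P Q s n ρ θ' z T lam X b r t → ∀ x ∈ closedBall b r,
      x ∈ ball z (2 * T) := by
    intro b r t hb x hx
    have h1 := hb.h1
    have h2 : θ' * T ≤ 1 * T := by gcongr; linarith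
    have h3 := hb.hb
    rw [mem_closedBall] at hx
    rw [mem_ball] at h3 ⊢
    have := dist_triangle x b z
    linarith
  by_cases hsmall : ‖lam‖ * T ≤ ε₁
  · have hsub : Eset P Q s n ρ θ' z T lam X ⊆ ball z (2 * T) := by
      rintro x ⟨b, r, t, hb, hx⟩
      exact hin b r t hb x hx
    refine (measure_mono hsub).trans ?_
    rw [volume_oball _ (by positivity)]
    apply ENNReal.ofReal_le_ofReal
    rw [le_div_iff₀ (by positivity)]
    calc Real.pi * (2 * T) ^ 2 * ‖lam‖ ^ 2 = 4 * Real.pi * (‖lam‖ * T) ^ 2 := by ring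
      _ ≤ 4 * Real.pi * ε₁ ^ 2 := by gcongr
      _ ≤ ε := hε₁
  · push Not at hsmall
    have hlq : ∀ b r t, Ctr P Q s n ρ θ' z T lam X b r t → τ ≤ t →
        n * cτ * ‖lam‖ ≤ n * ‖lq P Q (X b)‖ * ‖lam‖ := by
      intro b r t hb hτt
      rw [hcτ]
      exact hb.glow h hlow hτ0.le hτt hc
    set E : ℂ → Set ℂ := fun p => {x | ∃ b r t, Ctr P Q s n ρ θ' z T lam X b r t ∧
      x ∈ closedBall b r ∧ τ ≤ t ∧ dist b (z + T * p) < η * T} with hEdef
    have hsub : Eset P Q s n ρ θ' z T lam X ⊆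
        {x ∈ ball z (2 * T) | ∃ y ∈ A, ‖X x - y‖ < 2 * τ} ∪ ⋃ p ∈ F', E p := by
      rintro x ⟨b, r, t, hb, hx⟩
      by_cases htτ : τ ≤ t
      · right
        have h1 : (b - z) / T ∈ closedBall (0 : ℂ) 1 := by
          rw [mem_closedBall_zero_iff, norm_div, Complex.norm_real, Real.norm_eq_abs,
            abs_of_pos hT, div_le_one hT]
          have := hb.hb
          rw [mem_ball, dist_eq_norm] at this
          exact this.le
        have h2 := hF h1
        simp only [mem_iUnion] at h2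
        obtain ⟨p, hp, hbp⟩ := h2
        simp only [mem_iUnion]
        refine ⟨p, hFfin.mem_toFinset.2 hp, b, r, t, hb, hx, htτ, ?_⟩
        rw [mem_ball, dist_eq_norm] at hbp
        rw [dist_eq_norm]
        have hTC : (T : ℂ) ≠ 0 := by exact_mod_cast hT.ne'
        have h3 : b - (z + T * p) = T * ((b - z) / T - p) := by
          field_simp
          ring
        rw [h3, norm_mul, Complex.norm_real, Real.norm_eq_abs, abs_of_pos hT, mul_comm]
        gcongr
      · left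
        push Not at htτ
        refine ⟨hin b r t hb x hx, ?_⟩
        rcases hb.hatt with h1 | ⟨y, hy, h1⟩
        · linarith
        · refine ⟨y, hy, ?_⟩
          have hbb : b ∈ ball z (2 * T) := hin b r t hb b (mem_closedBall_self hb.hr.le)
          have h2 := (h.bilip (hin b r t hb x hx) hbb).2
          rw [mem_closedBall, dist_eq_norm] at hx
          have h3 : 5 / 4 * ‖lam‖ * ‖x - b‖ ≤ 5 / 4 * ‖lam‖ * r := by gcongr
          have h4 := hb.h2
          have h5 : θ' * t ≤ 1 * t := by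
            have := hb.ht0
            gcongr
            linarith
          have h6 := norm_add_le (X x - X b) (X b - y)
          rw [sub_add_sub_cancel] at h6
          have h7 := hb.ht0
          linarith
    have hEp : ∀ p ∈ F', volume (E p) ≤
        ENNReal.ofReal (36 * (Real.log (2 / ρ ^ 2) + 1) * η / (n * cτ * ‖lam‖ ^ 2)) := by
      intro p _
      rcases Set.eq_empty_or_nonempty (E p) with h0 | ⟨x₀, v, r₀, t₀, hv, -, hτ₀, hvp⟩
      · rw [h0, measure_empty]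
        exact zero_le
      · have hgv := hlq v r₀ t₀ hv hτ₀
        obtain ⟨g, hg⟩ : ∃ g : ℝ, g = n * ‖lq P Q (X v)‖ * ‖lam‖ := ⟨_, rfl⟩
        rw [← hg] at hgv
        have hg200 : 200 ≤ g := by
          refine le_trans ?_ hgv
          calc 200 ≤ n * (cτ * lam₀) := hb2
            _ = n * cτ * lam₀ := by ring
            _ ≤ n * cτ * ‖lam‖ := by gcongr; exact h.hlow
        have hTl : ‖lam‖ * T ≤ 1 := h.hsize
        have hstrip := h.strip hn1 hs hvar hlam₀ hv.hb hρ hρ1 (Bad_one hv.hbad)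
          (σ := 3 * (η * T)) (d := τ) (g := g) (by positivity) hg hg200 (by
            have : η * T ≤ 1 / 600 * T := by gcongr
            linarith) hτ0 (fun y hy => hτ₀.trans (hv.hfar y hy)) (by
            calc 5 / 4 * ‖lam‖ * (3 * (η * T)) = 15 / 4 * η * (‖lam‖ * T) := by ring
              _ ≤ 15 / 4 * η * 1 := by gcongr
              _ ≤ θ * τ := by linarith)
        have hsub2 : E p ⊆ {x ∈ ball v (3 * (η * T)) | ρ / 2 ≤ ‖nxt P Q s n X x‖ ∧
            ‖nxt P Q s n X x‖ ≤ 2 / ρ} := by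
          rintro x ⟨b, r, t, hb, hx, hτt, hbp⟩
          refine ⟨?_, hb.hnx x hx⟩
          have hgb := hlq b r t hb hτt
          have h3 := hb.h3
          have hr := hb.hr
          have h4 : 6 * r * (n * cτ * ‖lam‖) ≤ θ' := le_trans (by gcongr) h3
          have h5 : r ≤ η * T := by
            have h6 : 6 * r * (n * cτ * ‖lam‖) ≤ n * (6 * cτ * η * ε₁) := h4.trans hb3
            have h7 : (6 * n * cτ) * (r * ‖lam‖) ≤ (6 * n * cτ) * (η * ε₁) := by
              calc (6 * n * cτ) * (r * ‖lam‖) = 6 * r * (n * cτ * ‖lam‖) := by ring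
                _ ≤ _ := h6
                _ = _ := by ring
            have h8 := le_of_mul_le_mul_left h7 (by positivity)
            have h9 : r * ‖lam‖ ≤ η * (‖lam‖ * T) := h8.trans (by gcongr)
            have h10 : ‖lam‖ * r ≤ ‖lam‖ * (η * T) := by linarith
            exact le_of_mul_le_mul_left h10 hlam
          rw [mem_closedBall] at hx
          rw [mem_ball]
          have h11 := dist_triangle x b v
          have h12 := dist_triangle_right b v (z + T * p)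
          linarith
        refine (measure_mono hsub2).trans (hstrip.trans ?_)
        apply ENNReal.ofReal_le_ofReal
        calc 12 * (Real.log (2 / ρ ^ 2) + 1) * (3 * (η * T)) / g
            ≤ 12 * (Real.log (2 / ρ ^ 2) + 1) * (3 * (η * T)) / (n * cτ * ‖lam‖) := by gcongr
          _ = 36 * (Real.log (2 / ρ ^ 2) + 1) * η * (‖lam‖ * T) / (n * cτ * ‖lam‖ ^ 2) := by
              field_simp
              ring
          _ ≤ 36 * (Real.log (2 / ρ ^ 2) + 1) * η * 1 / (n * cτ * ‖lam‖ ^ 2) := by gcongr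
          _ = _ := by rw [mul_one]
    refine (measure_mono hsub).trans ((measure_union_le _ _).trans
      ((add_le_add (h.near_union hlam₀ A (by positivity : 0 < 2 * τ))
        ((measure_biUnion_finset_le F' _).trans (Finset.sum_le_sum hEp))).trans ?_))
    rw [Finset.sum_const, nsmul_eq_mul, ← ENNReal.ofReal_natCast,
      ← ENNReal.ofReal_mul (Nat.cast_nonneg _), ← ENNReal.ofReal_add (by positivity) (by positivity)]
    apply ENNReal.ofReal_le_ofReal
    have e1 : (A.card : ℝ) * (9 * Real.pi * (2 * τ) ^ 2 / ‖lam‖ ^ 2) ≤ ε / 2 / ‖lam‖ ^ 2 := by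
      rw [← mul_div_assoc]
      gcongr
    have e2 : (F'.card : ℝ) * (36 * (Real.log (2 / ρ ^ 2) + 1) * η / (n * cτ * ‖lam‖ ^ 2)) ≤
        ε / 2 / ‖lam‖ ^ 2 := by
      rw [← mul_div_assoc, ← hK, div_div, div_le_div_iff₀ (by positivity) (by positivity)]
      have h1 : 2 * K ≤ n * (cτ * ε) := hb4
      have h2 : 0 < ‖lam‖ ^ 2 := by positivity
      nlinarith
    calc _ ≤ ε / 2 / ‖lam‖ ^ 2 + ε / 2 / ‖lam‖ ^ 2 := add_le_add e1 e2
      _ = ε / ‖lam‖ ^ 2 := by ring

end Pool.Agent.Helper134.AR
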