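import Mathlib
import Pool.Agent.Helper134_FD.Setup
import Pool.Agent.Helper134_AR.Curves

/-!
# The area of the parameters which are not hyperbolic, in discs of radius `1 / n`
-/

set_option autoImplicit false

open Set Filter Topology Metric MeasureTheory

namespace Pool.Agent.Helper134.AR

open Pool.Agent.H762R2.Rt Pool.Agent.Helper134.FD

variable {P Q : Polynomial ℂ}

theorem W_eq (s : ℂ) (n : ℕ) (v : ℂ) (k : ℕ) (ζ : ℂ) :
    W P Q s n v k ζ = (stp P Q s n ζ)^[k] (v * Complex.exp ζ) := by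
  induction k with
  | zero => rfl
  | succ k ih =>
    rw [Function.iterate_succ_apply', ← ih]
    rfl

/-- The first curve. -/
theorem cur_zero {ρ : ℝ} (hρ : 0 < ρ) (hρ1 : ρ < 1) {v : ℂ} (hv1 : ρ / Real.exp 1 ≤ ‖v‖)
    (hv2 : ‖v‖ ≤ Real.exp 1 / ρ) :
    Cur (ρ / 3) 0 (ρ / 30) v (fun ζ => v * Complex.exp ζ) := by
  have he := Real.exp_one_lt_d9
  have he0 := Real.exp_pos 1
  have hd : ∀ ζ : ℂ, HasDerivAt (fun ζ => v * Complex.exp ζ) (v * Complex.exp ζ) ζ := fun ζ =>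
    (Complex.hasDerivAt_exp ζ).const_mul v
  refine ⟨by positivity, closedBall_subset_closedBall (by linarith), fun ζ _ =>
    (hd ζ).differentiableAt, ?_, ?_, ?_⟩
  · intro ζ hζ
    rw [(hd ζ).deriv]
    have h1 : v * Complex.exp ζ - v = v * (Complex.exp ζ - 1) := by ring
    rw [mem_ball_zero_iff] at hζ
    have h2 := Complex.norm_exp_sub_one_le (x := ζ) (by linarith)
    rw [h1, norm_mul]
    calc ‖v‖ * ‖Complex.exp ζ - 1‖ ≤ ‖v‖ * (1 / 4) := by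
          gcongr
          linarith
      _ = ‖v‖ / 4 := by ring
  · refine le_trans ?_ hv1
    gcongr
    linarith
  · calc ‖v‖ * (ρ / 30) ≤ Real.exp 1 / ρ * (ρ / 30) := by gcongr
      _ = Real.exp 1 / 30 := by field_simp
      _ ≤ 1 := by linarith

theorem zeta_bound (hc : IsCoprime P Q) {D : ℕ} (hD : D = max P.natDegree Q.natDegree)
    (hD1 : 0 < D) {r1 r2 : ℝ} (hr1 : 0 < r1) (hr : r1 ≤ r2)
    (h0 : r2 * ‖P.coeff 0‖ < ‖Q.coeff 0‖ ∨ ‖Q.coeff 0‖ < r1 * ‖P.coeff 0‖)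
    (hDD : r2 * ‖P.coeff D‖ < ‖Q.coeff D‖ ∨ ‖Q.coeff D‖ < r1 * ‖P.coeff D‖) {m : ℕ} (hm2 : 2 ≤ m)
    (hm : ∀ y : ℂ, (wro P Q).eval y = 0 → r1 * ‖P.eval y‖ ≤ ‖Q.eval y‖ →
      ‖Q.eval y‖ ≤ r2 * ‖P.eval y‖ → (wro P Q).rootMultiplicity y < m) :
    ∃ ρ C : ℝ, 0 < ρ ∧ ρ < 1 ∧ 0 < C ∧ ∃ n₀ : ℕ, ∀ n : ℕ, n₀ ≤ n → 1 ≤ n ∧
      ∀ s : ℂ, r1 ≤ ‖s‖ → ‖s‖ ≤ r2 →
        volume {ζ ∈ ball (0 : ℂ) (ρ / 30) | ¬ Hyp (Polynomial.C (s * Complex.exp (ζ / n)) *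
          Polynomial.expand ℂ n P) (Polynomial.expand ℂ n Q)} ≤
          ENNReal.ofReal (C * (n : ℝ) ^ (-(2 / ((m : ℝ) - 1)))) ∧
        (¬ Hyp (Polynomial.C s * Polynomial.expand ℂ n P) (Polynomial.expand ℂ n Q) →
          ∃ y ∈ (wro P Q).roots.toFinset, ρ < ‖(s * P.eval y / Q.eval y) ^ n‖ ∧
            ‖(s * P.eval y / Q.eval y) ^ n‖ < ρ⁻¹) := by
  have hw : wro P Q ≠ 0 := by
    apply wro_ne_zero hc
    rw [← hD]; exact hD1
  have hP : P ≠ 0 := by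
    rintro rfl
    simp [wro] at hw
  have hQ : Q ≠ 0 := by
    rintro rfl
    simp [wro] at hw
  have hPQ : wro P Q * (P * Q) ≠ 0 := mul_ne_zero hw (mul_ne_zero hP hQ)
  obtain ⟨ρ, c, r1', r2', hρ0, hρ1, hc0, hr1'0, -, -, hlowS, -, n₀, hn₀⟩ := setup hc hD hD1 hr1 hr
    h0 hDD hm
  obtain ⟨θ, hθ0, -, hvar⟩ := lq_var hP hQ hw
  obtain ⟨C, hC0, n₁, hn₁⟩ := curve_bound (P := P) (Q := Q) (lam₀ := ρ / 3) (θ := θ) (c := c)
    hm2 hvar hθ0 (by positivity) hρ0 hρ1 hc0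
  have he0 := Real.exp_pos 1
  have he1 : 1 ≤ Real.exp 1 := Real.one_le_exp zero_le_one
  refine ⟨ρ, (wro P Q).roots.toFinset.card * (9 * C / ρ ^ 2) + 1, hρ0, hρ1, by positivity,
    max n₀ n₁, fun n hn => ?_⟩
  obtain ⟨hn1, hcl1, hcl2, -⟩ := hn₀ n ((le_max_left _ _).trans hn)
  have hnn1 : n₁ ≤ n := (le_max_right _ _).trans hn
  have hn0 : (0 : ℝ) < n := by exact_mod_cast hn1
  refine ⟨hn1, fun s hs1 hs2 => ?_⟩
  have hs : s ≠ 0 := by
    rintro rfl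
    rw [norm_zero] at hs1
    linarith
  -- the lower bound
  have hlow : Low P Q s n ρ c m := by
    intro ζ hζ w hw1 hw2 hs3 hs4 e he0' he1' hfar
    rw [mem_closedBall_zero_iff] at hζ
    have hre := abs_le.1 ((Complex.abs_re_le_norm ζ).trans hζ)
    unfold stp at hs3 hs4
    rw [norm_mul, Complex.norm_exp] at hs3 hs4
    have h1 : Real.exp ζ.re ≤ Real.exp 1 := Real.exp_le_exp.2 hre.2
    have h2 : (Real.exp 1)⁻¹ ≤ Real.exp ζ.re := by
      rw [← Real.exp_neg]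
      exact Real.exp_le_exp.2 hre.1
    have hN : 0 ≤ ‖(s * P.eval w / Q.eval w) ^ n‖ := norm_nonneg _
    obtain ⟨h3, h4⟩ := hcl1 s hs1 hs2 w (by
      rw [div_le_iff₀ he0]
      calc ρ ≤ Real.exp ζ.re * ‖(s * P.eval w / Q.eval w) ^ n‖ := hs3.le
        _ ≤ Real.exp 1 * ‖(s * P.eval w / Q.eval w) ^ n‖ := by gcongr
        _ = _ := mul_comm _ _) (by
      rw [le_div_iff₀ hρ0]
      have h5 : (Real.exp 1)⁻¹ * ‖(s * P.eval w / Q.eval w) ^ n‖ ≤ ρ⁻¹ :=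
        le_trans (by gcongr) hs4.le
      rw [inv_mul_le_iff₀ he0] at h5
      calc ‖(s * P.eval w / Q.eval w) ^ n‖ * ρ ≤ Real.exp 1 * ρ⁻¹ * ρ := by gcongr
        _ = Real.exp 1 := by field_simp)
    apply hlowS w (by
      have : 0 < ρ⁻¹ := by positivity
      linarith) h3 h4 e he0' he1'
    intro y hy
    apply hfar
    rw [special, Multiset.mem_toFinset, Polynomial.mem_roots hPQ]
    rw [Multiset.mem_toFinset, Polynomial.mem_roots hw] at hy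
    rw [Polynomial.IsRoot.def] at hy ⊢
    rw [Polynomial.eval_mul, hy, zero_mul]
  set v : ℂ → ℂ := fun y => (s * P.eval y / Q.eval y) ^ n with hv
  -- the bad set of one critical point
  have hbad : ∀ ζ : ℂ, ‖ζ‖ ≤ 1 → ¬ Hyp (Polynomial.C (s * Complex.exp (ζ / n)) *
      Polynomial.expand ℂ n P) (Polynomial.expand ℂ n Q) →
      ∃ y ∈ (wro P Q).roots.toFinset, ζ ∈ Bad P Q s n ρ (fun ζ => v y * Complex.exp ζ) := by
    intro ζ hζ hnot
    by_contra hcon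
    push Not at hcon
    apply hnot
    apply hcl2 s hs1 hs2 ζ hζ
    intro y hy
    have h1 := hcon y hy
    unfold Bad at h1
    rw [mem_setOf_eq] at h1
    push Not at h1
    obtain ⟨k, hk⟩ := h1
    refine ⟨k, ?_⟩
    rw [W_eq]
    by_cases h2 : ρ < ‖(stp P Q s n ζ)^[k] (v y * Complex.exp ζ)‖
    · exact Or.inr (hk h2)
    · exact Or.inl (not_lt.1 h2)
  have hone : ∀ y ∈ (wro P Q).roots.toFinset,
      volume (Bad P Q s n ρ (fun ζ => v y * Complex.exp ζ) ∩ ball 0 (ρ / 30)) ≤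
        ENNReal.ofReal (9 * C / ρ ^ 2 * (n : ℝ) ^ (-(2 / ((m : ℝ) - 1)))) := by
    intro y _
    rcases Set.eq_empty_or_nonempty
      (Bad P Q s n ρ (fun ζ => v y * Complex.exp ζ) ∩ ball 0 (ρ / 30)) with h1 | ⟨ζ, hζ, hζ'⟩
    · rw [h1, measure_empty]
      exact zero_le
    · rw [mem_ball_zero_iff] at hζ'
      have hre := abs_le.1 ((Complex.abs_re_le_norm ζ).trans (by linarith : ‖ζ‖ ≤ 1))
      have h2 := Bad_zero hζ
      rw [norm_mul, Complex.norm_exp] at h2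
      have h3 : Real.exp ζ.re ≤ Real.exp 1 := Real.exp_le_exp.2 hre.2
      have h4 : (Real.exp 1)⁻¹ ≤ Real.exp ζ.re := by
        rw [← Real.exp_neg]
        exact Real.exp_le_exp.2 hre.1
      have hv1 : ρ / Real.exp 1 ≤ ‖v y‖ := by
        rw [div_le_iff₀ he0]
        calc ρ ≤ ‖v y‖ * Real.exp ζ.re := h2.1.le
          _ ≤ ‖v y‖ * Real.exp 1 := by gcongr
      have hv2 : ‖v y‖ ≤ Real.exp 1 / ρ := by
        have h5 : ‖v y‖ * (Real.exp 1)⁻¹ ≤ ρ⁻¹ := le_trans (by gcongr) h2.2.le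
        rw [← div_eq_mul_inv, div_le_iff₀ he0] at h5
        calc ‖v y‖ ≤ ρ⁻¹ * Real.exp 1 := h5
          _ = Real.exp 1 / ρ := by rw [div_eq_mul_inv, mul_comm]
      have hcur := cur_zero hρ0 hρ1 hv1 hv2
      refine (hn₁ n hnn1 s hs hlow _ _ _ _ hcur).trans ?_
      apply ENNReal.ofReal_le_ofReal
      have h6 : ρ / 3 ≤ ‖v y‖ := hcur.hlow
      calc C * (n : ℝ) ^ (-(2 / ((m : ℝ) - 1))) / ‖v y‖ ^ 2
          ≤ C * (n : ℝ) ^ (-(2 / ((m : ℝ) - 1))) / (ρ / 3) ^ 2 := by gcongr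
        _ = _ := by
            field_simp
            ring
  constructor
  · have hsub : {ζ ∈ ball (0 : ℂ) (ρ / 30) | ¬ Hyp (Polynomial.C (s * Complex.exp (ζ / n)) *
          Polynomial.expand ℂ n P) (Polynomial.expand ℂ n Q)} ⊆
        ⋃ y ∈ (wro P Q).roots.toFinset,
          (Bad P Q s n ρ (fun ζ => v y * Complex.exp ζ) ∩ ball 0 (ρ / 30)) := by
      rintro ζ ⟨hζ, hnot⟩
      have h1 : ‖ζ‖ ≤ 1 := by
        rw [mem_ball_zero_iff] at hζ
        linarith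
      obtain ⟨y, hy, hy'⟩ := hbad ζ h1 hnot
      simp only [mem_iUnion]
      exact ⟨y, hy, hy', hζ⟩
    refine (measure_mono hsub).trans ((measure_biUnion_finset_le _ _).trans
      ((Finset.sum_le_sum hone).trans ?_))
    rw [Finset.sum_const, nsmul_eq_mul, ← ENNReal.ofReal_natCast,
      ← ENNReal.ofReal_mul (Nat.cast_nonneg _)]
    apply ENNReal.ofReal_le_ofReal
    have hp : 0 ≤ (n : ℝ) ^ (-(2 / ((m : ℝ) - 1))) := by positivity
    rw [add_mul, ← mul_assoc]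
    linarith
  · intro hnot
    have h1 := hbad 0 (by simp) (by simpa using hnot)
    obtain ⟨y, hy, hy'⟩ := h1
    have h2 := Bad_zero hy'
    simp only [Complex.exp_zero, mul_one] at h2
    exact ⟨y, hy, h2⟩

end Pool.Agent.Helper134.AR
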