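import Mathlib
import Pool.Agent.Helper134_AR.Param

/-!
# The area of the parameters which are not hyperbolic
-/

set_option autoImplicit false

open Set Filter Topology Metric MeasureTheory

namespace Pool.Agent.Helper134.AR

open Pool.Agent.H762R2.Rt Pool.Agent.Helper134.FD

variable {P Q : Polynomial ℂ}

theorem area_image_le' {f f' : ℂ → ℂ} {U S : Set ℂ} (hU : MeasurableSet U) (hSU : S ⊆ U)
    (hd : ∀ x ∈ U, HasDerivAt f (f' x) x) {δ : ℝ}
    (hup : ∀ x ∈ U, ‖f' x‖ ≤ δ) : volume (f '' S) ≤ ENNReal.ofReal (δ ^ 2) * volume S := by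
  have h1 := area_image_le (S := toMeasurable volume S ∩ U)
    ((measurableSet_toMeasurable _ _).inter hU) (fun x hx => hd x hx.2) (fun x hx => hup x hx.2)
  refine (measure_mono (image_mono ?_)).trans (h1.trans ?_)
  · exact fun x hx => ⟨subset_toMeasurable _ _ hx, hSU hx⟩
  · exact mul_le_mul_right ((measure_mono inter_subset_left).trans
      (measure_toMeasurable (μ := volume) S).le) _

/-- Covering a disc by small discs centred on the set. -/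
theorem cov {c₁ A : ℝ} (hc₁ : 0 < c₁) (hA : 0 < A) : ∃ J : ℕ, ∀ (B : Set ℂ) (R : ℝ), 0 < R →
    ∀ β : ENNReal, (∀ s ∈ B, volume (B ∩ ball s (c₁ * R)) ≤ β) →
      ∀ p : ℂ, volume (B ∩ closedBall p (A * R)) ≤ J * β := by
  obtain ⟨F, -, hFfin, hF⟩ := (isCompact_closedBall (0 : ℂ) 1).finite_cover_balls
    (e := c₁ / (2 * A)) (by positivity)
  refine ⟨hFfin.toFinset.card, fun B R hR β hB p => ?_⟩
  have hAR : 0 < A * R := by positivity
  have hARC : ((A * R : ℝ) : ℂ) ≠ 0 := by exact_mod_cast hAR.ne'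
  have hsub : B ∩ closedBall p (A * R) ⊆
      ⋃ q ∈ hFfin.toFinset, (B ∩ ball (p + (A * R : ℝ) * q) (c₁ * R / 2)) := by
    rintro x ⟨hx, hxp⟩
    have h1 : (x - p) / (A * R : ℝ) ∈ closedBall (0 : ℂ) 1 := by
      rw [mem_closedBall_zero_iff, norm_div, Complex.norm_real, Real.norm_eq_abs,
        abs_of_pos hAR, div_le_one hAR]
      rw [mem_closedBall, dist_eq_norm] at hxp
      exact hxp
    have h2 := hF h1
    simp only [mem_iUnion] at h2
    obtain ⟨q, hq, hxq⟩ := h2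
    simp only [mem_iUnion]
    refine ⟨q, hFfin.mem_toFinset.2 hq, hx, ?_⟩
    rw [mem_ball, dist_eq_norm] at hxq ⊢
    have h3 : x - (p + (A * R : ℝ) * q) = (A * R : ℝ) * ((x - p) / (A * R : ℝ) - q) := by
      field_simp
      ring
    rw [h3, norm_mul, Complex.norm_real, Real.norm_eq_abs, abs_of_pos hAR]
    calc A * R * ‖(x - p) / (A * R : ℝ) - q‖ < A * R * (c₁ / (2 * A)) := by gcongr
      _ = c₁ * R / 2 := by field_simp
  refine (measure_mono hsub).trans ((measure_biUnion_finset_le _ _).trans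
    ((Finset.sum_le_sum (g := fun _ => β) ?_).trans ?_))
  · intro q _
    rcases Set.eq_empty_or_nonempty (B ∩ ball (p + (A * R : ℝ) * q) (c₁ * R / 2)) with
      h0 | ⟨x₀, hx₀, hx₀'⟩
    · rw [h0, measure_empty]
      exact zero_le
    · refine (measure_mono ?_).trans (hB x₀ hx₀)
      rintro x ⟨hx, hx'⟩
      refine ⟨hx, ?_⟩
      rw [mem_ball] at hx' hx₀' ⊢
      have := dist_triangle_right x x₀ (p + (A * R : ℝ) * q)
      linarith
  · rw [Finset.sum_const, nsmul_eq_mul]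

theorem rpow_two_mul {n : ℝ} (hn : 0 < n) {m : ℝ} (hm : 0 < m - 1) :
    n ^ (-(2 * m / (m - 1))) = (n⁻¹) ^ 2 * n ^ (-(2 / (m - 1))) := by
  have h1 : -(2 * m / (m - 1)) = (-2 : ℝ) + -(2 / (m - 1)) := by
    field_simp
    ring
  rw [h1, Real.rpow_add hn, Real.rpow_neg hn.le, Real.rpow_two, inv_pow]

theorem local_plane (hc : IsCoprime P Q) {D : ℕ} (hD : D = max P.natDegree Q.natDegree)
    (hD1 : 0 < D) {r1 r2 : ℝ} (hr1 : 0 < r1) (hr : r1 ≤ r2)
    (h0 : r2 * ‖P.coeff 0‖ < ‖Q.coeff 0‖ ∨ ‖Q.coeff 0‖ < r1 * ‖P.coeff 0‖)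
    (hDD : r2 * ‖P.coeff D‖ < ‖Q.coeff D‖ ∨ ‖Q.coeff D‖ < r1 * ‖P.coeff D‖) {m : ℕ} (hm2 : 2 ≤ m)
    (hm : ∀ y : ℂ, (wro P Q).eval y = 0 → r1 * ‖P.eval y‖ ≤ ‖Q.eval y‖ →
      ‖Q.eval y‖ ≤ r2 * ‖P.eval y‖ → (wro P Q).rootMultiplicity y < m) :
    ∃ ρ c₁ C : ℝ, 0 < ρ ∧ ρ < 1 ∧ 0 < c₁ ∧ 0 < C ∧ ∃ n₀ : ℕ, ∀ n : ℕ, n₀ ≤ n → 1 ≤ n ∧
      ∀ s : ℂ, r1 ≤ ‖s‖ → ‖s‖ ≤ r2 →
        volume {s' ∈ ball s (c₁ / n) | ¬ Hyp (Polynomial.C s' *
          Polynomial.expand ℂ n P) (Polynomial.expand ℂ n Q)} ≤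
          ENNReal.ofReal (C * (n : ℝ) ^ (-(2 * (m : ℝ) / ((m : ℝ) - 1)))) ∧
        (¬ Hyp (Polynomial.C s * Polynomial.expand ℂ n P) (Polynomial.expand ℂ n Q) →
          ∃ y ∈ (wro P Q).roots.toFinset, ρ < ‖(s * P.eval y / Q.eval y) ^ n‖ ∧
            ‖(s * P.eval y / Q.eval y) ^ n‖ < ρ⁻¹) := by
  obtain ⟨ρ, C, hρ0, hρ1, hC, n₀, hn₀⟩ := zeta_bound hc hD hD1 hr1 hr h0 hDD hm2 hm
  have hr2 : 0 < r2 := hr1.trans_le hr
  have hm1 : (0 : ℝ) < (m : ℝ) - 1 := by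
    have : (2 : ℝ) ≤ m := by exact_mod_cast hm2
    linarith
  refine ⟨ρ, ρ * r1 / 60, 9 * r2 ^ 2 * C, hρ0, hρ1, by positivity, by positivity, n₀,
    fun n hn => ?_⟩
  obtain ⟨hn1, hmain⟩ := hn₀ n hn
  refine ⟨hn1, fun s hs1 hs2 => ?_⟩
  obtain ⟨hvol, hthin⟩ := hmain s hs1 hs2
  refine ⟨?_, hthin⟩
  have hn0 : (0 : ℝ) < n := by exact_mod_cast hn1
  have hn0' : (n : ℂ) ≠ 0 := by exact_mod_cast hn0.ne'
  have hn1' : (1 : ℝ) ≤ n := by exact_mod_cast hn1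
  have hs0 : 0 < ‖s‖ := hr1.trans_le hs1
  have hsne : s ≠ 0 := norm_pos_iff.1 hs0
  have hsub : {s' ∈ ball s (ρ * r1 / 60 / n) | ¬ Hyp (Polynomial.C s' *
      Polynomial.expand ℂ n P) (Polynomial.expand ℂ n Q)} ⊆
      (fun ζ : ℂ => s * Complex.exp (ζ / n)) '' {ζ ∈ ball (0 : ℂ) (ρ / 30) |
        ¬ Hyp (Polynomial.C (s * Complex.exp (ζ / n)) *
          Polynomial.expand ℂ n P) (Polynomial.expand ℂ n Q)} := by
    rintro s' ⟨hs', hnot⟩
    rw [mem_ball, dist_eq_norm, lt_div_iff₀ hn0] at hs'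
    obtain ⟨x, hx⟩ : ∃ x : ℂ, x = (s' - s) / s := ⟨_, rfl⟩
    have hxn : ‖x‖ * n ≤ ρ / 60 := by
      rw [hx, norm_div, div_mul_eq_mul_div, div_le_iff₀ hs0]
      calc ‖s' - s‖ * n ≤ ρ * r1 / 60 := hs'.le
        _ = ρ / 60 * r1 := by ring
        _ ≤ ρ / 60 * ‖s‖ := by gcongr
    have hx2 : ‖x‖ ≤ 1 / 2 := by
      have : ‖x‖ * 1 ≤ ‖x‖ * n := by gcongr
      linarith
    have h1x : 1 + x ≠ 0 := by
      intro h
      have h2 : x = -1 := by linear_combination h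
      rw [h2, norm_neg, norm_one] at hx2
      norm_num at hx2
    have hsx : s' = s * (1 + x) := by
      rw [hx]
      field_simp
      ring
    have hlog := Complex.norm_log_one_add_half_le_self hx2
    have he : s * Complex.exp (n * Complex.log (1 + x) / n) = s' := by
      rw [mul_div_cancel_left₀ _ hn0', Complex.exp_log h1x, ← hsx]
    refine ⟨n * Complex.log (1 + x), ⟨?_, ?_⟩, he⟩
    · rw [mem_ball_zero_iff, norm_mul, Complex.norm_natCast]
      calc n * ‖Complex.log (1 + x)‖ ≤ n * (3 / 2 * ‖x‖) := by gcongr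
        _ = 3 / 2 * (‖x‖ * n) := by ring
        _ ≤ 3 / 2 * (ρ / 60) := by gcongr
        _ < ρ / 30 := by linarith
    · rw [he]
      exact hnot
  have hd : ∀ ζ ∈ ball (0 : ℂ) (ρ / 30), HasDerivAt (fun ζ : ℂ => s * Complex.exp (ζ / n))
      (s * (Complex.exp (ζ / n) * (1 / n))) ζ := by
    intro ζ _
    exact (((hasDerivAt_id ζ).div_const (n : ℂ)).cexp).const_mul s
  have hup : ∀ ζ ∈ ball (0 : ℂ) (ρ / 30), ‖s * (Complex.exp (ζ / n) * (1 / n))‖ ≤ 3 * r2 / n := by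
    intro ζ hζ
    rw [mem_ball_zero_iff] at hζ
    rw [norm_mul, norm_mul, norm_div, norm_one, Complex.norm_natCast, Complex.norm_exp]
    have h1 : (ζ / n).re ≤ 1 := by
      refine (Complex.re_le_norm _).trans ?_
      rw [norm_div, Complex.norm_natCast, div_le_one hn0]
      linarith
    have h2 : Real.exp (ζ / n).re ≤ 3 := by
      have h3 := Real.exp_le_exp.2 h1
      have := Real.exp_one_lt_d9
      linarith
    calc ‖s‖ * (Real.exp (ζ / n).re * (1 / n)) ≤ r2 * (3 * (1 / n)) := by gcongr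
      _ = 3 * r2 / n := by ring
  refine (measure_mono hsub).trans ((area_image_le' measurableSet_ball (fun ζ hζ => hζ.1) hd
    hup).trans ((mul_le_mul_right hvol _).trans ?_))
  rw [← ENNReal.ofReal_mul (by positivity)]
  apply ENNReal.ofReal_le_ofReal
  rw [rpow_two_mul hn0 hm1]
  apply le_of_eq
  field_simp
  ring

/-- Two points of a circle. -/
theorem circle_near (a b : ℝ) : ‖Complex.exp (a * Complex.I) - Complex.exp (b * Complex.I)‖ ≤
    |a - b| := by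
  have h1 : Complex.exp (a * Complex.I) - Complex.exp (b * Complex.I) =
      Complex.exp (b * Complex.I) * (Complex.exp (Complex.I * ((a - b : ℝ) : ℂ)) - 1) := by
    rw [mul_sub, ← Complex.exp_add, mul_one]
    congr 2
    push_cast
    ring
  rw [h1, norm_mul, Complex.norm_exp_ofReal_mul_I, one_mul]
  exact Real.norm_exp_I_mul_ofReal_sub_one_le

/-- A thin ring is covered by `n + 1` discs of radius of the order of `1 / n`. -/
theorem ring_cover {b ρ r2 : ℝ} (hρ : 0 < ρ) (hr2 : 0 < r2) {n : ℕ} (hn : 1 ≤ n)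
    (hn2 : 2 / ρ ≤ n) (hb : 0 < b) {s : ℂ} (hs : ‖s‖ ≤ r2) (h1 : ρ < (‖s‖ / b) ^ n)
    (h2 : (‖s‖ / b) ^ n < ρ⁻¹) :
    ∃ j ∈ Finset.range (n + 1), s ∈ closedBall
      (b * Complex.exp ((2 * Real.pi * j / n - Real.pi : ℝ) * Complex.I))
      ((2 * r2 / ρ + 4 * Real.pi * r2) * (1 / n)) := by
  have hn0 : (0 : ℝ) < n := by exact_mod_cast hn
  have hpi := Real.pi_pos
  obtain ⟨u, hu⟩ : ∃ u : ℝ, u = ‖s‖ / b := ⟨_, rfl⟩
  rw [← hu] at h1 h2
  have hu0 : 0 < u := by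
    by_contra hcon
    have h3 : u = 0 := le_antisymm (not_lt.1 hcon) (by rw [hu]; positivity)
    rw [h3, zero_pow (by omega)] at h1
    linarith
  have hsu : ‖s‖ = u * b := by rw [hu]; field_simp
  have hu1 : |u - 1| ≤ 1 / (ρ * n) := by
    rcases le_total 1 u with h3 | h3
    · rw [abs_of_nonneg (by linarith), le_div_iff₀ (by positivity)]
      have h4 := one_add_mul_le_pow (a := u - 1) (by linarith) n
      rw [add_sub_cancel] at h4
      have h5 : n * (u - 1) ≤ ρ⁻¹ := by linarith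
      calc (u - 1) * (ρ * n) = ρ * (n * (u - 1)) := by ring
        _ ≤ ρ * ρ⁻¹ := by gcongr
        _ = 1 := mul_inv_cancel₀ hρ.ne'
    · rw [abs_of_nonpos (by linarith), le_div_iff₀ (by positivity)]
      have h6 : 1 ≤ u⁻¹ := (one_le_inv₀ hu0).2 h3
      have h4 := one_add_mul_le_pow (a := u⁻¹ - 1) (by linarith) n
      rw [add_sub_cancel] at h4
      have h5 : u⁻¹ ^ n ≤ ρ⁻¹ := by
        rw [inv_pow]
        exact inv_anti₀ hρ h1.le
      have h7 : n * (u⁻¹ - 1) ≤ ρ⁻¹ := by linarith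
      have h8 : 1 - u ≤ u⁻¹ - 1 := by
        have h9 : u * u⁻¹ = 1 := mul_inv_cancel₀ hu0.ne'
        nlinarith
      calc -(u - 1) * (ρ * n) = ρ * (n * (1 - u)) := by ring
        _ ≤ ρ * (n * (u⁻¹ - 1)) := by gcongr
        _ ≤ ρ * ρ⁻¹ := by gcongr
        _ = 1 := mul_inv_cancel₀ hρ.ne'
  have hb2 : b ≤ 2 * r2 := by
    have h3 : 1 / (ρ * n) ≤ 1 / 2 := by
      apply one_div_le_one_div_of_le (by norm_num)
      rw [div_le_iff₀ hρ] at hn2
      linarith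
    have h4 : 1 / 2 ≤ u := by
      have := (abs_le.1 hu1).1
      linarith
    have h5 : 1 / 2 * b ≤ u * b := by gcongr
    linarith
  -- the angle
  obtain ⟨φ, hφ⟩ : ∃ φ : ℝ, φ = s.arg := ⟨_, rfl⟩
  have hφ1 : -Real.pi < φ := by rw [hφ]; exact Complex.neg_pi_lt_arg s
  have hφ2 : φ ≤ Real.pi := by rw [hφ]; exact Complex.arg_le_pi s
  obtain ⟨x, hx⟩ : ∃ x : ℝ, x = n * (φ + Real.pi) / (2 * Real.pi) := ⟨_, rfl⟩
  have hx0 : 0 ≤ x := by
    rw [hx]
    have : 0 ≤ φ + Real.pi := by linarith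
    positivity
  have hxn : x ≤ n := by
    rw [hx, div_le_iff₀ (by positivity)]
    gcongr
    linarith
  refine ⟨⌊x⌋₊, ?_, ?_⟩
  · rw [Finset.mem_range, Nat.lt_succ_iff]
    exact Nat.floor_le_of_le hxn
  · have hj1 := Nat.floor_le hx0
    have hj2 := Nat.lt_floor_add_one x
    have hφx : φ = 2 * Real.pi * x / n - Real.pi := by
      rw [hx]
      field_simp
      ring
    have hs' : s = ‖s‖ * Complex.exp (φ * Complex.I) := by
      rw [hφ]
      exact (Complex.norm_mul_exp_arg_mul_I s).symm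
    rw [mem_closedBall, dist_eq_norm]
    set ψ : ℝ := 2 * Real.pi * ⌊x⌋₊ / n - Real.pi with hψ
    have h3 : s - b * Complex.exp (ψ * Complex.I) =
        ((‖s‖ - b : ℝ) : ℂ) * Complex.exp (φ * Complex.I) +
          b * (Complex.exp (φ * Complex.I) - Complex.exp (ψ * Complex.I)) := by
      conv_lhs => rw [hs']
      push_cast
      ring
    rw [h3]
    refine (norm_add_le _ _).trans ?_
    rw [norm_mul, norm_mul, Complex.norm_exp_ofReal_mul_I, mul_one, Complex.norm_real,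
      Complex.norm_real, Real.norm_eq_abs, Real.norm_eq_abs, abs_of_pos hb]
    have h4 := circle_near φ ψ
    have h5 : |φ - ψ| ≤ 2 * Real.pi / n := by
      have h6 : φ - ψ = 2 * Real.pi / n * (x - ⌊x⌋₊) := by
        rw [hφx, hψ]
        field_simp
        ring
      rw [h6, abs_mul, abs_of_pos (by positivity), abs_of_nonneg (by linarith)]
      calc 2 * Real.pi / n * (x - ⌊x⌋₊) ≤ 2 * Real.pi / n * 1 := by
            gcongr
            linarith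
        _ = _ := mul_one _
    have h7 : |‖s‖ - b| ≤ 2 * r2 * (1 / (ρ * n)) := by
      have h8 : ‖s‖ - b = b * (u - 1) := by rw [hsu]; ring
      rw [h8, abs_mul, abs_of_pos hb]
      gcongr
    calc |‖s‖ - b| + b * ‖Complex.exp (φ * Complex.I) - Complex.exp (ψ * Complex.I)‖
        ≤ 2 * r2 * (1 / (ρ * n)) + 2 * r2 * (2 * Real.pi / n) := by
          gcongr
          exact h4.trans h5
      _ = _ := by
          field_simp
          ring

/-- The main bounds. -/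
theorem main_area (hc : IsCoprime P Q) {D : ℕ} (hD : D = max P.natDegree Q.natDegree)
    (hD1 : 0 < D) {r1 r2 : ℝ} (hr1 : 0 < r1) (hr : r1 ≤ r2)
    (h0 : r2 * ‖P.coeff 0‖ < ‖Q.coeff 0‖ ∨ ‖Q.coeff 0‖ < r1 * ‖P.coeff 0‖)
    (hDD : r2 * ‖P.coeff D‖ < ‖Q.coeff D‖ ∨ ‖Q.coeff D‖ < r1 * ‖P.coeff D‖) {m : ℕ} (hm2 : 2 ≤ m)
    (hm : ∀ y : ℂ, (wro P Q).eval y = 0 → r1 * ‖P.eval y‖ ≤ ‖Q.eval y‖ →
      ‖Q.eval y‖ ≤ r2 * ‖P.eval y‖ → (wro P Q).rootMultiplicity y < m) :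
    ∃ C : ℝ, 0 < C ∧ ∃ n₀ : ℕ, ∀ n : ℕ, n₀ ≤ n →
      (∀ s : ℂ, volume {s' : ℂ | ‖s' - s‖ ≤ 1 / n ∧ r1 ≤ ‖s'‖ ∧ ‖s'‖ ≤ r2 ∧
        ¬ Hyp (Polynomial.C s' * Polynomial.expand ℂ n P) (Polynomial.expand ℂ n Q)} ≤
          ENNReal.ofReal (C * (n : ℝ) ^ (-(2 * (m : ℝ) / ((m : ℝ) - 1))))) ∧
      volume {s : ℂ | r1 ≤ ‖s‖ ∧ ‖s‖ ≤ r2 ∧
        ¬ Hyp (Polynomial.C s * Polynomial.expand ℂ n P) (Polynomial.expand ℂ n Q)} ≤
          ENNReal.ofReal (C * (n : ℝ) ^ (-(((m : ℝ) + 1) / ((m : ℝ) - 1)))) ∧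
      ∀ s : ℂ, r1 ≤ ‖s‖ → ‖s‖ ≤ r2 → ∃ s' : ℂ,
        ‖s' - s‖ ≤ C * (n : ℝ) ^ (-((m : ℝ) / ((m : ℝ) - 1))) ∧
        Hyp (Polynomial.C s' * Polynomial.expand ℂ n P) (Polynomial.expand ℂ n Q) := by
  have hw : wro P Q ≠ 0 := by
    apply wro_ne_zero hc
    rw [← hD]; exact hD1
  have hr2 : 0 < r2 := hr1.trans_le hr
  have hpi := Real.pi_pos
  have hm1 : (0 : ℝ) < (m : ℝ) - 1 := by
    have : (2 : ℝ) ≤ m := by exact_mod_cast hm2
    linarith
  obtain ⟨ρ, c₁, C, hρ0, hρ1, hc₁, hC, n₀, hn₀⟩ := local_plane hc hD hD1 hr1 hr h0 hDD hm2 hm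
  obtain ⟨J₁, hJ₁⟩ := cov hc₁ (A := 1) one_pos
  obtain ⟨J₂, hJ₂⟩ := cov hc₁ (A := 2 * r2 / ρ + 4 * Real.pi * r2) (by positivity)
  obtain ⟨n₁, hn₁⟩ := exists_nat_ge (2 / ρ)
  have hlim : Tendsto (fun n : ℕ => C * (n : ℝ) ^ (-(1 / ((m : ℝ) - 1)))) atTop (𝓝 (C * 0)) :=
    ((tendsto_rpow_neg_atTop (by positivity)).comp tendsto_natCast_atTop_atTop).const_mul C
  rw [mul_zero] at hlim
  obtain ⟨C₂, hC₂⟩ : ∃ C₂ : ℝ, C₂ = C + 1 := ⟨_, rfl⟩
  have hC₂0 : 0 < C₂ := by rw [hC₂]; positivity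
  have hlim2 : Tendsto (fun n : ℕ => C₂ * (n : ℝ) ^ (-(1 / ((m : ℝ) - 1)))) atTop
      (𝓝 (C₂ * 0)) :=
    ((tendsto_rpow_neg_atTop (by positivity)).comp tendsto_natCast_atTop_atTop).const_mul C₂
  rw [mul_zero] at hlim2
  obtain ⟨n₂, hn₂⟩ := eventually_atTop.1 (hlim2.eventually_le_const hc₁)
  obtain ⟨K, hK⟩ : ∃ K : ℝ, K = (wro P Q).roots.toFinset.card := ⟨_, rfl⟩
  have hK0 : 0 ≤ K := by rw [hK]; positivity
  refine ⟨C₂ + J₁ * C + K * (2 * (J₂ * C)), by positivity, max n₀ (max n₁ n₂), fun n hn => ?_⟩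
  have hnn0 : n₀ ≤ n := (le_max_left _ _).trans hn
  have hnn1 : n₁ ≤ n := ((le_max_left _ _).trans (le_max_right _ _)).trans hn
  have hnn2 : n₂ ≤ n := ((le_max_right _ _).trans (le_max_right _ _)).trans hn
  obtain ⟨hn1, hmain⟩ := hn₀ n hnn0
  have hn0 : (0 : ℝ) < n := by exact_mod_cast hn1
  have hn1' : (1 : ℝ) ≤ n := by exact_mod_cast hn1
  have hnρ : 2 / ρ ≤ n := hn₁.trans (by exact_mod_cast hnn1)
  set B : Set ℂ := {s : ℂ | r1 ≤ ‖s‖ ∧ ‖s‖ ≤ r2 ∧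
    ¬ Hyp (Polynomial.C s * Polynomial.expand ℂ n P) (Polynomial.expand ℂ n Q)} with hB
  obtain ⟨β, hβ⟩ : ∃ β : ℝ, β = C * (n : ℝ) ^ (-(2 * (m : ℝ) / ((m : ℝ) - 1))) := ⟨_, rfl⟩
  have hβ0 : 0 ≤ β := by rw [hβ]; positivity
  have hBloc : ∀ s ∈ B, volume (B ∩ ball s (c₁ * (1 / n))) ≤ ENNReal.ofReal β := by
    intro s hs
    have h1 := (hmain s hs.1 hs.2.1).1
    rw [← hβ] at h1
    refine le_trans (measure_mono ?_) h1
    rintro s' ⟨hs', hs''⟩
    refine ⟨?_, hs'.2.2⟩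
    rwa [mul_one_div] at hs''
  refine ⟨?_, ?_, ?_⟩
  · intro s
    have h1 := hJ₁ B (1 / n) (by positivity) _ hBloc s
    have h2 : {s' : ℂ | ‖s' - s‖ ≤ 1 / n ∧ r1 ≤ ‖s'‖ ∧ ‖s'‖ ≤ r2 ∧
        ¬ Hyp (Polynomial.C s' * Polynomial.expand ℂ n P) (Polynomial.expand ℂ n Q)} ⊆
        B ∩ closedBall s (1 * (1 / n)) := by
      rintro s' ⟨h3, h4⟩
      refine ⟨h4, ?_⟩
      rw [mem_closedBall, dist_eq_norm, one_mul]
      exact h3
    refine (measure_mono h2).trans (h1.trans ?_)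
    rw [← ENNReal.ofReal_natCast, ← ENNReal.ofReal_mul (by positivity)]
    apply ENNReal.ofReal_le_ofReal
    have hp : 0 ≤ (n : ℝ) ^ (-(2 * (m : ℝ) / ((m : ℝ) - 1))) := by positivity
    rw [hβ, ← mul_assoc]
    gcongr
    have : 0 ≤ K * (2 * (J₂ * C)) := by positivity
    linarith
  · have hcover : B ⊆ ⋃ y ∈ (wro P Q).roots.toFinset, ⋃ j ∈ Finset.range (n + 1),
        (B ∩ closedBall ((‖Q.eval y‖ / ‖P.eval y‖ : ℝ) *
          Complex.exp ((2 * Real.pi * j / n - Real.pi : ℝ) * Complex.I))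
          ((2 * r2 / ρ + 4 * Real.pi * r2) * (1 / n))) := by
      intro s hs
      obtain ⟨y, hy, hy1, hy2⟩ := (hmain s hs.1 hs.2.1).2 hs.2.2
      have hne : (s * P.eval y / Q.eval y) ≠ 0 := by
        intro h3
        rw [h3, zero_pow (by omega), norm_zero] at hy1
        linarith
      have hPy : 0 < ‖P.eval y‖ := by
        rw [norm_pos_iff]
        intro h3
        apply hne
        simp [h3]
      have hQy : 0 < ‖Q.eval y‖ := by
        rw [norm_pos_iff]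
        intro h3
        apply hne
        simp [h3]
      have he : ‖(s * P.eval y / Q.eval y) ^ n‖ = (‖s‖ / (‖Q.eval y‖ / ‖P.eval y‖)) ^ n := by
        rw [norm_pow, norm_div, norm_mul]
        congr 1
        field_simp
      rw [he] at hy1 hy2
      obtain ⟨j, hj, hsj⟩ := ring_cover hρ0 hr2 hn1 hnρ (by positivity) hs.2.1 hy1 hy2
      simp only [mem_iUnion]
      exact ⟨y, hy, j, hj, hs, hsj⟩
    refine (measure_mono hcover).trans ((measure_biUnion_finset_le _ _).trans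
      ((Finset.sum_le_sum (g := fun _ => ENNReal.ofReal ((n + 1) * (J₂ * β))) ?_).trans ?_))
    · intro y _
      refine (measure_biUnion_finset_le _ _).trans ((Finset.sum_le_sum
        (g := fun _ => ENNReal.ofReal (J₂ * β)) ?_).trans ?_)
      · intro j _
        refine (hJ₂ B (1 / n) (by positivity) _ hBloc _).trans ?_
        rw [← ENNReal.ofReal_natCast, ← ENNReal.ofReal_mul (by positivity)]
      · rw [Finset.sum_const, nsmul_eq_mul, Finset.card_range, ← ENNReal.ofReal_natCast,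
          ← ENNReal.ofReal_mul (by positivity)]
        push_cast
        exact le_rfl
    · rw [Finset.sum_const, nsmul_eq_mul, ← ENNReal.ofReal_natCast,
        ← ENNReal.ofReal_mul (by positivity), ← hK]
      apply ENNReal.ofReal_le_ofReal
      have he : (n : ℝ) * (n : ℝ) ^ (-(2 * (m : ℝ) / ((m : ℝ) - 1))) =
          (n : ℝ) ^ (-(((m : ℝ) + 1) / ((m : ℝ) - 1))) := by
        have h1 : -(((m : ℝ) + 1) / ((m : ℝ) - 1)) = 1 + -(2 * (m : ℝ) / ((m : ℝ) - 1)) := by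
          field_simp
          ring
        rw [h1, Real.rpow_add hn0, Real.rpow_one]
      rw [← he]
      have hp : 0 ≤ (n : ℝ) * (n : ℝ) ^ (-(2 * (m : ℝ) / ((m : ℝ) - 1))) := by positivity
      calc K * ((n + 1) * (J₂ * β)) ≤ K * ((n + n) * (J₂ * β)) := by gcongr
        _ = K * (2 * (J₂ * C)) * (n * (n : ℝ) ^ (-(2 * (m : ℝ) / ((m : ℝ) - 1)))) := by
            rw [hβ]
            ring
        _ ≤ _ := by
            gcongr
            have : 0 ≤ C₂ + J₁ * C := by positivity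
            linarith
  · intro s hs1 hs2
    by_contra hcon
    push Not at hcon
    have h1 := (hmain s hs1 hs2).1
    obtain ⟨r, hr'⟩ : ∃ r : ℝ, r = C₂ * (n : ℝ) ^ (-((m : ℝ) / ((m : ℝ) - 1))) := ⟨_, rfl⟩
    have hr0 : 0 < r := by rw [hr']; positivity
    have hrc : r ≤ c₁ / n := by
      have h2 := hn₂ n hnn2
      rw [hr', le_div_iff₀ hn0]
      have h3 : -((m : ℝ) / ((m : ℝ) - 1)) = -(1 / ((m : ℝ) - 1)) + -1 := by
        field_simp
        ring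
      rw [h3, Real.rpow_add hn0, Real.rpow_neg_one]
      calc C₂ * ((n : ℝ) ^ (-(1 / ((m : ℝ) - 1))) * (n : ℝ)⁻¹) * n =
            C₂ * (n : ℝ) ^ (-(1 / ((m : ℝ) - 1))) := by field_simp
        _ ≤ c₁ := h2
    have h2 : ball s r ⊆ {s' ∈ ball s (c₁ / n) | ¬ Hyp (Polynomial.C s' *
        Polynomial.expand ℂ n P) (Polynomial.expand ℂ n Q)} := by
      intro s' hs'
      refine ⟨ball_subset_ball hrc hs', ?_⟩
      apply hcon
      rw [mem_ball, dist_eq_norm] at hs'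
      refine hs'.le.trans ?_
      rw [hr']
      gcongr
      have : 0 ≤ J₁ * C + K * (2 * (J₂ * C)) := by positivity
      linarith
    have h3 := (measure_mono h2).trans h1
    rw [volume_oball _ hr0.le, ENNReal.ofReal_le_ofReal_iff (by positivity)] at h3
    have h4 : r ^ 2 = C₂ ^ 2 * (n : ℝ) ^ (-(2 * (m : ℝ) / ((m : ℝ) - 1))) := by
      rw [hr', mul_pow]
      congr 1
      rw [← Real.rpow_natCast, ← Real.rpow_mul hn0.le]
      congr 1
      push_cast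
      ring
    rw [h4] at h3
    have hp : 0 < (n : ℝ) ^ (-(2 * (m : ℝ) / ((m : ℝ) - 1))) := by positivity
    have h5 : Real.pi * C₂ ^ 2 ≤ C := by
      have h6 : (Real.pi * C₂ ^ 2) * (n : ℝ) ^ (-(2 * (m : ℝ) / ((m : ℝ) - 1))) ≤
          C * (n : ℝ) ^ (-(2 * (m : ℝ) / ((m : ℝ) - 1))) := by
        calc _ = Real.pi * (C₂ ^ 2 * (n : ℝ) ^ (-(2 * (m : ℝ) / ((m : ℝ) - 1)))) := by ring
          _ ≤ _ := h3
      exact le_of_mul_le_mul_right h6 hp
    have h7 := Real.pi_gt_three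
    have h8 : C₂ ^ 2 = C ^ 2 + 2 * C + 1 := by rw [hC₂]; ring
    nlinarith

end Pool.Agent.Helper134.AR
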